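import Pool.Agent.Y342.SK.Core
import Pool.Agent.TH432.Had.Miya

/-!
# Symmetric cores of order `v ^ 2 ^ j`, and Hadamard matrices of orders `2 (w + 1)` and `4 w`
-/

set_option autoImplicit false

namespace Pool.Agent.Y342.SK

open Matrix Finset
open scoped Kronecker
open Pool.Agent.H108R3.Had (HasHad)

/-- a core (skew if `e = -1`, symmetric if `e = 1`) -/
structure IsCoreG {ι : Type} [Fintype ι] [DecidableEq ι] (e : ℤ) (B : ι → ι → ℤ) : Prop where
  diag : ∀ x, B x x = 0
  sign : ∀ x y, x ≠ y → Sg (B x y)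
  sym : ∀ x y, B y x = e * B x y
  row : ∀ x, ∑ y, B x y = 0
  mul : ∀ x y, ∑ z, B x z * B y z = (if x = y then (Fintype.card ι : ℤ) else 0) - 1

theorem IsCore.toG {v : ℕ} {S : Fin v → Fin v → ℤ} (h : IsCore S) : IsCoreG (-1) S where
  diag := h.diag
  sign := h.sign
  sym x y := by rw [h.skew x y]; ring
  row := h.row
  mul x y := by rw [h.mul, Fintype.card_fin]

section sq

variable {ι : Type} [Fintype ι] [DecidableEq ι]

/-- the square of a core -/
def sqB (B : ι → ι → ℤ) (p q : ι × ι) : ℤ :=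
  B p.1 q.1 * B p.2 q.2 + (if p.1 = q.1 then 1 else 0) - (if p.2 = q.2 then 1 else 0)

theorem nine (a a' b b' d d' e e' : ι → ℤ) :
    ∑ z : ι × ι, (a z.1 * b z.2 + d z.1 - e z.2) * (a' z.1 * b' z.2 + d' z.1 - e' z.2) =
      (∑ x, a x * a' x) * (∑ y, b y * b' y) + (∑ x, a x * d' x) * (∑ y, b y)
      - (∑ x, a x) * (∑ y, b y * e' y) + (∑ x, d x * a' x) * (∑ y, b' y)
      + (∑ x, d x * d' x) * (∑ _y : ι, (1 : ℤ)) - (∑ x, d x) * (∑ y, e' y)
      - (∑ x, a' x) * (∑ y, e y * b' y) - (∑ x, d' x) * (∑ y, e y)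
      + (∑ _x : ι, (1 : ℤ)) * (∑ y, e y * e' y) := by
  rw [Fintype.sum_prod_type]
  simp only [Finset.sum_mul_sum, ← Finset.sum_add_distrib, ← Finset.sum_sub_distrib]
  refine Finset.sum_congr rfl fun x _ => Finset.sum_congr rfl fun y _ => ?_
  ring

theorem IsCoreG.sq {e : ℤ} (he : e * e = 1) {B : ι → ι → ℤ} (h : IsCoreG e B) :
    IsCoreG 1 (sqB B) := by
  refine ⟨?_, ?_, ?_, ?_, ?_⟩
  · rintro ⟨x, x'⟩
    simp [sqB, h.diag]
  · rintro ⟨x, x'⟩ ⟨y, y'⟩ hne
    simp only [sqB]
    by_cases h1 : x = y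
    · subst h1
      have h2 : x' ≠ y' := fun h2 => hne (by rw [h2])
      rw [if_pos rfl, if_neg h2, h.diag]
      left; ring
    · by_cases h2 : x' = y'
      · subst h2
        rw [if_neg h1, if_pos rfl, h.diag]
        right; ring
      · rw [if_neg h1, if_neg h2, add_zero, sub_zero]
        exact (h.sign _ _ h1).mul (h.sign _ _ h2)
  · rintro ⟨x, x'⟩ ⟨y, y'⟩
    simp only [sqB]
    rw [h.sym x y, h.sym x' y']
    have e1 : (if y = x then (1 : ℤ) else 0) = if x = y then 1 else 0 := by simp only [eq_comm]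
    have e2 : (if y' = x' then (1 : ℤ) else 0) = if x' = y' then 1 else 0 := by simp only [eq_comm]
    rw [e1, e2]
    linear_combination (B x y * B x' y') * he
  · rintro ⟨x, x'⟩
    simp only [sqB]
    rw [Fintype.sum_prod_type]
    have h1 : ∀ a : ι, ∑ b : ι, (B x a * B x' b + (if x = a then 1 else 0) -
        (if x' = b then 1 else 0)) = (Fintype.card ι : ℤ) * (if x = a then 1 else 0) - 1 := by
      intro a
      rw [Finset.sum_sub_distrib, Finset.sum_add_distrib, ← Finset.mul_sum, h.row, mul_zero,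
        zero_add, Finset.sum_const, card_univ, nsmul_eq_mul, Finset.sum_ite_eq, if_pos (mem_univ _)]
    rw [Finset.sum_congr rfl fun a _ => h1 a, Finset.sum_sub_distrib, ← Finset.mul_sum,
      Finset.sum_ite_eq, if_pos (mem_univ _), Finset.sum_const, card_univ, nsmul_eq_mul]
    ring
  · rintro ⟨x, x'⟩ ⟨y, y'⟩
    simp only [sqB]
    have h9 := nine (B x) (B y) (B x') (B y') (fun z => if x = z then 1 else 0)
      (fun z => if y = z then 1 else 0) (fun z => if x' = z then 1 else 0)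
      (fun z => if y' = z then 1 else 0)
    rw [h9, h.mul, h.mul, h.row, h.row, h.row, h.row]
    simp only [mul_zero, zero_mul, add_zero, sub_zero, Finset.sum_ite_eq, mem_univ, if_true,
      ite_mul, one_mul, Prod.mk.injEq, Finset.sum_const, card_univ, nsmul_eq_mul, mul_one,
      Fintype.card_prod]
    by_cases h1 : x = y
    · by_cases h2 : x' = y'
      · subst h1 h2
        simp
        try ring
      · subst h1
        have h3 : ¬ y' = x' := fun h => h2 h.symm
        simp [h2, h3]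
        try ring
    · have h4 : ¬ y = x := fun h => h1 h.symm
      by_cases h2 : x' = y'
      · subst h2
        simp [h1, h4]
        try ring
      · have h3 : ¬ y' = x' := fun h => h2 h.symm
        simp [h1, h2, h3, h4]

theorem IsCoreG.fin {e : ℤ} {B : ι → ι → ℤ} (h : IsCoreG e B) {m : ℕ} (hm : Fintype.card ι = m) :
    ∃ B' : Fin m → Fin m → ℤ, IsCoreG e B' := by
  let f : Fin m ≃ ι := (Fintype.equivFinOfCardEq hm).symm
  refine ⟨fun x y => B (f x) (f y), fun x => h.diag _, fun x y hxy => h.sign _ _ fun h' =>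
    hxy (f.injective h'), fun x y => h.sym _ _, fun x => ?_, fun x y => ?_⟩
  · rw [Equiv.sum_comp f (fun y => B (f x) y)]; exact h.row _
  · rw [Equiv.sum_comp f (fun z => B (f x) z * B (f y) z), h.mul, Fintype.card_fin, hm]
    by_cases hxy : x = y
    · rw [if_pos hxy, if_pos (congrArg f hxy)]
    · rw [if_neg hxy, if_neg fun h' => hxy (f.injective h')]

end sq

/-- symmetric cores of order `v ^ 2 ^ (j + 1)` -/
theorem sym_core {v : ℕ} {S : Fin v → Fin v → ℤ} (h : IsCore S) (j : ℕ) :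
    ∃ B : Fin (v ^ 2 ^ (j + 1)) → Fin (v ^ 2 ^ (j + 1)) → ℤ, IsCoreG 1 B := by
  induction j with
  | zero =>
    have := h.toG.sq (by norm_num)
    refine this.fin ?_
    rw [Fintype.card_prod, Fintype.card_fin]
    ring
  | succ j ih =>
    obtain ⟨B, hB⟩ := ih
    refine (hB.sq (by norm_num)).fin ?_
    rw [Fintype.card_prod, Fintype.card_fin, pow_succ 2 (j + 1), pow_mul]
    ring

/-- Paley's second construction from a symmetric core -/
theorem had_two {m : ℕ} {B : Fin m → Fin m → ℤ} (h : IsCoreG 1 B) : HasHad (2 * (m + 1)) := by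
  have hs : ∀ x y, B y x = B x y := fun x y => by rw [h.sym x y, one_mul]
  let C : Matrix (Fin (m + 1)) (Fin (m + 1)) ℤ :=
    Matrix.of (Fin.cons (Fin.cons 0 (fun _ => 1)) (fun x => Fin.cons 1 (fun y => B x y)))
  have c00 : C 0 0 = 0 := rfl
  have c01 : ∀ y : Fin m, C 0 y.succ = 1 := fun y => rfl
  have c10 : ∀ y : Fin m, C y.succ 0 = 1 := fun y => rfl
  have c11 : ∀ x y : Fin m, C x.succ y.succ = B x y := fun x y => rfl
  have hCd : ∀ x, C x x = 0 := by
    intro x
    refine Fin.cases ?_ (fun x => ?_) x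
    · exact c00
    · rw [c11]; exact h.diag x
  have hCs : ∀ x y, x ≠ y → Sg (C x y) := by
    intro x y
    refine Fin.cases ?_ (fun x => ?_) x <;> refine Fin.cases ?_ (fun y => ?_) y
    · intro h0; exact absurd rfl h0
    · intro _; rw [c01]; left; rfl
    · intro _; rw [c10]; left; rfl
    · intro h0; rw [c11]; exact h.sign _ _ fun h' => h0 (by rw [h'])
  have hCT : Cᵀ = C := by
    ext x y
    rw [transpose_apply]
    refine Fin.cases ?_ (fun x => ?_) x <;> refine Fin.cases ?_ (fun y => ?_) y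
    · rfl
    · rw [c01, c10]
    · rw [c01, c10]
    · rw [c11, c11, hs]
  have hCC : C * C = (m : ℤ) • (1 : Matrix (Fin (m + 1)) (Fin (m + 1)) ℤ) := by
    ext x y
    rw [Matrix.mul_apply, Matrix.smul_apply, Matrix.one_apply, Fin.sum_univ_succ]
    refine Fin.cases ?_ (fun x => ?_) x <;> refine Fin.cases ?_ (fun y => ?_) y
    · simp only [c00, c01, c10]
      try simp
    · simp only [c00, c01, c11, one_mul, zero_mul, zero_add]
      rw [if_neg (Fin.succ_ne_zero y).symm, Finset.sum_congr rfl fun z _ => hs y z, h.row]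
      try simp
    · simp only [c00, c10, c11, mul_one, mul_zero, zero_add]
      rw [if_neg (Fin.succ_ne_zero x), h.row]
      try simp
    · simp only [c10, c01, c11, mul_one]
      rw [Finset.sum_congr rfl fun z _ => by rw [hs y z], h.mul, Fintype.card_fin]
      by_cases hxy : x = y
      · rw [if_pos hxy, if_pos (by rw [hxy])]
        try simp
      · rw [if_neg hxy, if_neg fun h' => hxy (Fin.succ_injective _ h')]
        try simp
  let h' : Matrix (Fin 2) (Fin 2) ℤ := !![1, -1; -1, -1]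
  have h'T : h'ᵀ = h' := by decide
  have h'h' : h' * h' = (2 : ℤ) • (1 : Matrix (Fin 2) (Fin 2) ℤ) := by decide
  have hh' : Rel (-1) hh h' := by unfold Rel; decide
  have h's : ∀ i j, Sg (h' i j) := by
    intro i j; fin_cases i <;> fin_cases j <;> simp [Sg, h']
  let M : Matrix (Fin 2 × Fin (m + 1)) (Fin 2 × Fin (m + 1)) ℤ :=
    hh ⊗ₖ C + h' ⊗ₖ (1 : Matrix (Fin (m + 1)) (Fin (m + 1)) ℤ)
  have hMT : Mᵀ = M := by
    change (hh ⊗ₖ C + h' ⊗ₖ (1 : Matrix (Fin (m + 1)) (Fin (m + 1)) ℤ))ᵀ = _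
    rw [transpose_add, ← kroneckerMap_transpose, ← kroneckerMap_transpose, transpose_one, hhT,
      h'T, hCT]
  have hMM : M * M = ((2 * (m + 1) : ℕ) : ℤ) • (1 : Matrix _ _ ℤ) := by
    have h1 : Rel (-1) (hh ⊗ₖ C) (h' ⊗ₖ (1 : Matrix (Fin (m + 1)) (Fin (m + 1)) ℤ)) := by
      simpa using hh'.kron (Rel.one_right C)
    change (hh ⊗ₖ C + h' ⊗ₖ (1 : Matrix (Fin (m + 1)) (Fin (m + 1)) ℤ)) * (hh ⊗ₖ C + h' ⊗ₖ 1) = _
    rw [sq_add h1, ← mul_kronecker_mul, ← mul_kronecker_mul, hCC, hh_hh, h'h', one_mul,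
      smul_one_kron, smul_kronecker, one_kronecker_one, ← add_smul]
    congr 1
  refine Pool.Agent.TH432.Had.had_reindex (ι := Fin 2 × Fin (m + 1)) ?_ M ?_ ?_
  · rw [Fintype.card_prod, Fintype.card_fin, Fintype.card_fin]
  · rintro ⟨i, x⟩ ⟨j, y⟩
    change Sg ((hh ⊗ₖ C + h' ⊗ₖ (1 : Matrix (Fin (m + 1)) (Fin (m + 1)) ℤ)) (i, x) (j, y))
    simp only [Matrix.add_apply, kroneckerMap_apply]
    by_cases hxy : x = y
    · subst hxy
      rw [hCd, mul_zero, zero_add, Matrix.one_apply_eq, mul_one]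
      exact h's _ _
    · rw [Matrix.one_apply_ne hxy, mul_zero, add_zero]
      exact (hh_sg _ _).mul (hCs _ _ hxy)
  · intro p q
    have h1 := congrFun (congrFun hMM p) q
    rw [Matrix.mul_apply, Matrix.smul_apply, Matrix.one_apply] at h1
    have h2 : ∑ k, M p k * M q k = ∑ k, M p k * M k q := by
      refine Finset.sum_congr rfl fun k _ => ?_
      have := congrFun (congrFun hMT k) q
      rw [transpose_apply] at this
      rw [this]
    rw [h2, h1]
    by_cases hpq : p = q <;> simp [hpq]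

/-- Miyamoto's construction from a symmetric core -/
theorem had_four {m : ℕ} {B : Fin (m + 1) → Fin (m + 1) → ℤ} (h : IsCoreG 1 B) (hm : HasHad m) :
    HasHad (4 * (m + 1)) := by
  obtain ⟨H, hH1, hH2⟩ := hm
  have hH3 := Pool.Agent.TH432.Had.had_transpose H hH2
  have hs : ∀ x y, B y x = B x y := fun x y => by rw [h.sym x y, one_mul]
  let D : Pool.Agent.TH432.Had.Data (Fin m) :=
    { P := fun x y => B x.succ y.succ
      c := fun x => B 0 x.succ
      K := fun x y => H x y
      k := (m : ℤ) + 1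
      P0 := fun x => h.diag _
      P1 := fun x y hxy => h.sign _ _ fun h' => hxy (Fin.succ_injective _ h')
      hc := fun x => h.sign _ _ (Fin.succ_ne_zero x).symm
      hP := by
        intro x y
        have h1 := h.mul x.succ y.succ
        rw [Fin.sum_univ_succ, Fintype.card_fin, hs 0 x.succ, hs 0 y.succ] at h1
        by_cases hxy : x = y
        · subst hxy
          rw [if_pos rfl] at h1 ⊢
          push_cast at h1
          linarith
        · rw [if_neg fun h' => hxy (Fin.succ_injective _ h')] at h1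
          rw [if_neg hxy]
          linarith
      hr := by
        intro x
        have h1 := h.row x.succ
        rw [Fin.sum_univ_succ, hs 0 x.succ] at h1
        linarith
      hs := by
        intro x
        have h1 := h.mul x.succ 0
        rw [Fin.sum_univ_succ, if_neg (Fin.succ_ne_zero x), h.diag 0, mul_zero, zero_add] at h1
        linarith
      hcs := by
        have h1 := h.row 0
        rw [Fin.sum_univ_succ, h.diag, zero_add] at h1
        exact h1
      K1 := fun x y => hH1 x y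
      hK := by
        intro x y
        have h2 := congrFun (congrFun hH2 x) y
        rw [Matrix.mul_apply] at h2
        simp only [Matrix.transpose_apply, Matrix.smul_apply, Matrix.one_apply] at h2
        rw [h2]
        by_cases hxy : x = y <;> simp [hxy]
      hK' := by
        intro x y
        have h2 := congrFun (congrFun hH3 x) y
        rw [Matrix.mul_apply] at h2
        simp only [Matrix.transpose_apply, Matrix.smul_apply, Matrix.one_apply] at h2
        rw [h2]
        by_cases hxy : x = y <;> simp [hxy]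
      hcard := by rw [Fintype.card_fin]; ring }
  refine D.hasHad _ ?_
  show ((4 * (m + 1) : ℕ) : ℤ) = 4 * ((m : ℤ) + 1)
  push_cast
  ring

open Pool.Agent.W851.Had (tow)

theorem core_of {n v t : ℕ} {C : ℕ} (h : ∀ n q t : ℕ, 0 < q → q ≤ tow n → 2 ^ C ^ (n + 1) ≤ t →
    SkewC (2 ^ t * q)) (hv : v ≤ tow n) (ht : 2 ^ C ^ (n + 1) ≤ t) (hd : 2 ^ t ∣ v + 1) :
    ∃ S : Fin v → Fin v → ℤ, IsCore S := by
  obtain ⟨q, hq⟩ := hd
  have hq0 : 0 < q := by
    rcases Nat.eq_zero_or_pos q with h0 | h0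
    · rw [h0] at hq; omega
    · exact h0
  have h1t : 1 ≤ t := le_trans Nat.one_le_two_pow ht
  have h2 : 2 ≤ 2 ^ t := by
    calc 2 = 2 ^ 1 := by norm_num
      _ ≤ 2 ^ t := Nat.pow_le_pow_right (by norm_num) h1t
  have hqv : q ≤ v := by nlinarith
  have h3 := h n q t hq0 (hqv.trans hv) ht
  rw [← hq] at h3
  exact exists_core h3

/-- Hadamard matrices of order `2 (v ^ 2 ^ (j + 1) + 1)` -/
theorem main_two : ∃ C : ℕ, 2 ≤ C ∧ ∀ n v t j : ℕ, v ≤ tow n → 2 ^ C ^ (n + 1) ≤ t →
    2 ^ t ∣ v + 1 → HasHad (2 * (v ^ 2 ^ (j + 1) + 1)) := by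
  obtain ⟨C, hC, h⟩ := main_skew
  refine ⟨C, hC, fun n v t j hv ht hd => ?_⟩
  obtain ⟨S, hS⟩ := core_of h hv ht hd
  obtain ⟨B, hB⟩ := sym_core hS j
  exact had_two hB

theorem dvd_pow (v j : ℕ) : v + 1 ∣ v ^ 2 ^ (j + 1) - 1 := by
  induction j with
  | zero =>
    refine ⟨v - 1, ?_⟩
    have := Nat.sq_sub_sq v 1
    simpa using this
  | succ j ih =>
    rw [pow_succ 2 (j + 1), pow_mul]
    have e : (v ^ 2 ^ (j + 1)) ^ 2 - 1 = (v ^ 2 ^ (j + 1) + 1) * (v ^ 2 ^ (j + 1) - 1) := by
      have := Nat.sq_sub_sq (v ^ 2 ^ (j + 1)) 1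
      simpa using this
    rw [e]
    exact ih.mul_left _

theorem had_four' {w : ℕ} {B : Fin w → Fin w → ℤ} (h : IsCoreG 1 B) (hw : 0 < w)
    (hm : HasHad (w - 1)) : HasHad (4 * w) := by
  obtain ⟨m, rfl⟩ : ∃ m, w = m + 1 := ⟨w - 1, by omega⟩
  exact had_four h hm

/-- Hadamard matrices of order `4 v ^ 2 ^ (j + 1)` -/
theorem main_four : ∃ C : ℕ, 2 ≤ C ∧ ∀ n v t j : ℕ, v ^ 2 ^ (j + 1) ≤ tow n →
    2 ^ C ^ (n + 1) ≤ t → 2 ^ t ∣ v + 1 → HasHad (4 * v ^ 2 ^ (j + 1)) := by
  obtain ⟨C₁, hC₁, h1⟩ := main_skew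
  obtain ⟨C₂, hC₂, h2⟩ := Pool.Agent.W851.Had.main_had
  refine ⟨C₁ + C₂, by omega, fun n v t j hv ht hd => ?_⟩
  rcases Nat.eq_zero_or_pos v with h0 | h0
  · exfalso
    subst h0
    have h3 : t = 0 := by
      rw [zero_add, Nat.dvd_one] at hd
      by_contra h
      have : 2 ≤ 2 ^ t := by
        calc 2 = 2 ^ 1 := by norm_num
          _ ≤ 2 ^ t := Nat.pow_le_pow_right (by norm_num) (by omega)
      omega
    have : 1 ≤ 2 ^ (C₁ + C₂) ^ (n + 1) := Nat.one_le_two_pow
    omega
  have hv1 : v ≤ v ^ 2 ^ (j + 1) := Nat.le_self_pow (by positivity) v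
  have ht1 : 2 ^ C₁ ^ (n + 1) ≤ t := le_trans (Nat.pow_le_pow_right (by norm_num)
    (Nat.pow_le_pow_left (by omega) _)) ht
  have ht2 : C₂ ^ (n + 1) ≤ t := by
    refine le_trans ?_ ht
    exact (Nat.lt_two_pow_self.le).trans (Nat.pow_le_pow_right (by norm_num)
      (Nat.pow_le_pow_left (by omega) _))
  obtain ⟨S, hS⟩ := core_of h1 (hv1.trans hv) ht1 hd
  obtain ⟨B, hB⟩ := sym_core hS j
  have hw : 0 < v ^ 2 ^ (j + 1) := by positivity
  refine had_four' hB hw ?_
  obtain ⟨m, hm⟩ := hd.trans (dvd_pow v j)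
  rw [hm]
  refine h2 n m t ?_ ht2
  have : m ≤ 2 ^ t * m := Nat.le_mul_of_pos_left _ (by positivity)
  omega

end Pool.Agent.Y342.SK
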