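import Pool.Agent.Y342.SK.Etf
import Pool.Agent.Y342.SK.Sym

/-!
# Equiangular tight frames from skew and symmetric conference matrices
-/

set_option autoImplicit false

namespace Pool.Agent.Y342.SK

open Matrix Finset
open Pool.Agent.W851.Had (tow)

/-- the symmetric conference matrix of a symmetric core -/
theorem conf_of_core {m : ℕ} {B : Fin m → Fin m → ℤ} (h : IsCoreG 1 B) :
    ∃ C : Matrix (Fin (m + 1)) (Fin (m + 1)) ℤ, (∀ x, C x x = 0) ∧ (∀ x y, x ≠ y → Sg (C x y)) ∧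
      Cᵀ = C ∧ C * C = (m : ℤ) • (1 : Matrix (Fin (m + 1)) (Fin (m + 1)) ℤ) := by
  have hs : ∀ x y, B y x = B x y := fun x y => by rw [h.sym x y, one_mul]
  let C : Matrix (Fin (m + 1)) (Fin (m + 1)) ℤ :=
    Matrix.of (Fin.cons (Fin.cons 0 (fun _ => 1)) (fun x => Fin.cons 1 (fun y => B x y)))
  have c00 : C 0 0 = 0 := rfl
  have c01 : ∀ y : Fin m, C 0 y.succ = 1 := fun y => rfl
  have c10 : ∀ y : Fin m, C y.succ 0 = 1 := fun y => rfl
  have c11 : ∀ x y : Fin m, C x.succ y.succ = B x y := fun x y => rfl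
  refine ⟨C, ?_, ?_, ?_, ?_⟩
  · intro x
    refine Fin.cases ?_ (fun x => ?_) x
    · exact c00
    · rw [c11]; exact h.diag x
  · intro x y
    refine Fin.cases ?_ (fun x => ?_) x <;> refine Fin.cases ?_ (fun y => ?_) y
    · intro h0; exact absurd rfl h0
    · intro _; rw [c01]; left; rfl
    · intro _; rw [c10]; left; rfl
    · intro h0; rw [c11]; exact h.sign _ _ fun h' => h0 (by rw [h'])
  · ext x y
    rw [transpose_apply]
    refine Fin.cases ?_ (fun x => ?_) x <;> refine Fin.cases ?_ (fun y => ?_) y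
    · rfl
    · rw [c01, c10]
    · rw [c01, c10]
    · rw [c11, c11, hs]
  · ext x y
    rw [Matrix.mul_apply, Matrix.smul_apply, Matrix.one_apply, Fin.sum_univ_succ]
    refine Fin.cases ?_ (fun x => ?_) x <;> refine Fin.cases ?_ (fun y => ?_) y
    · simp only [c00, c01, c10]
      try simp
    · simp only [c00, c01, c11, one_mul, zero_mul, zero_add]
      rw [if_neg (Fin.succ_ne_zero y).symm, Finset.sum_congr rfl fun z _ => hs y z, h.row]
      try simp
    · simp only [c00, c10, c11, mul_one, mul_zero, zero_add]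
      rw [if_neg (Fin.succ_ne_zero x), h.row]
      try simp
    · simp only [c10, c01, c11, mul_one]
      rw [Finset.sum_congr rfl fun z _ => by rw [hs y z], h.mul, Fintype.card_fin]
      by_cases hxy : x = y
      · rw [if_pos hxy, if_pos (by rw [hxy])]
        try simp
      · rw [if_neg hxy, if_neg fun h' => hxy (Fin.succ_injective _ h')]
        try simp

/-- symmetric conference matrices of order `v ^ 2 ^ (j + 1) + 1` -/
theorem main_conf : ∃ C : ℕ, 2 ≤ C ∧ ∀ n v t j : ℕ, v ≤ tow n → 2 ^ C ^ (n + 1) ≤ t →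
    2 ^ t ∣ v + 1 → ∃ K : Matrix (Fin (v ^ 2 ^ (j + 1) + 1)) (Fin (v ^ 2 ^ (j + 1) + 1)) ℤ,
      (∀ x, K x x = 0) ∧ (∀ x y, x ≠ y → Sg (K x y)) ∧ Kᵀ = K ∧
      K * K = ((v ^ 2 ^ (j + 1) : ℕ) : ℤ) • (1 : Matrix _ _ ℤ) := by
  obtain ⟨C, hC, h⟩ := main_skew
  refine ⟨C, hC, fun n v t j hv ht hd => ?_⟩
  obtain ⟨S, hS⟩ := core_of h hv ht hd
  obtain ⟨B, hB⟩ := sym_core hS j
  exact conf_of_core hB

theorem map_mul_int {𝕜 : Type} [RCLike 𝕜] {N : ℕ} (A B : Matrix (Fin N) (Fin N) ℤ) :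
    A.map (Int.cast : ℤ → 𝕜) * B.map (Int.cast : ℤ → 𝕜) = (A * B).map (Int.cast : ℤ → 𝕜) := by
  ext i j
  simp [Matrix.mul_apply]

theorem norm_sg {𝕜 : Type} [RCLike 𝕜] {x : ℤ} (h : Sg x) : ‖(x : 𝕜)‖ = 1 := by
  rcases h with h | h <;> simp [h]

/-- `2 M` equiangular lines in `ℂ ^ M` forming a tight frame, from a skew conference matrix -/
theorem etf_skew {M : ℕ} (hM : 0 < M) (h : SkewC (2 * M)) :
    ∃ f : Fin (2 * M) → EuclideanSpace ℂ (Fin M), (∀ i, ‖f i‖ = 1) ∧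
      (∀ x, ∑ i, ‖inner ℂ (f i) x‖ ^ 2 = 2 * ‖x‖ ^ 2) ∧
      (∀ i j, i ≠ j → ‖inner ℂ (f i) (f j)‖ = 1 / Real.sqrt (((2 * M : ℕ) : ℝ) - 1)) := by
  obtain ⟨K, hK⟩ := h
  refine etf_of_conf hM rfl (Complex.I • K.map (Int.cast : ℤ → ℂ)) ?_ ?_ ?_ ?_
  · ext i j
    have h1 : K j i = - K i j := by
      have := congrFun (congrFun hK.skew i) j
      rwa [transpose_apply, Matrix.neg_apply] at this
    simp [Matrix.conjTranspose_apply, h1]
  · intro i
    simp [hK.diag]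
  · intro i j hij
    rw [Matrix.smul_apply, Matrix.map_apply, smul_eq_mul, norm_mul, norm_sg (hK.sign _ _ hij)]
    simp
  · rw [smul_mul_smul_comm, map_mul_int, hK.sq, Fintype.card_fin, Complex.I_mul_I]
    ext i j
    simp only [Matrix.smul_apply, Matrix.map_apply, Matrix.one_apply, smul_eq_mul]
    split_ifs <;> simp

/-- `2 M` real equiangular lines in dimension `M` forming a tight frame, from a symmetric conference
matrix -/
theorem etf_sym {𝕜 : Type} [RCLike 𝕜] {M w : ℕ} (hM : 0 < M) (hw : w + 1 = 2 * M)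
    (K : Matrix (Fin (w + 1)) (Fin (w + 1)) ℤ) (hd : ∀ x, K x x = 0)
    (hs : ∀ x y, x ≠ y → Sg (K x y)) (hT : Kᵀ = K)
    (hKK : K * K = (w : ℤ) • (1 : Matrix (Fin (w + 1)) (Fin (w + 1)) ℤ)) :
    ∃ f : Fin (w + 1) → EuclideanSpace 𝕜 (Fin M), (∀ i, ‖f i‖ = 1) ∧
      (∀ x, ∑ i, ‖inner 𝕜 (f i) x‖ ^ 2 = 2 * ‖x‖ ^ 2) ∧
      (∀ i j, i ≠ j → ‖inner 𝕜 (f i) (f j)‖ = 1 / Real.sqrt (((w + 1 : ℕ) : ℝ) - 1)) := by
  refine etf_of_conf hM hw (K.map (Int.cast : ℤ → 𝕜)) ?_ ?_ ?_ ?_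
  · ext i j
    have h1 : K j i = K i j := by
      have := congrFun (congrFun hT i) j
      rwa [transpose_apply] at this
    simp [Matrix.conjTranspose_apply, h1]
  · intro i
    simp [hd]
  · intro i j hij
    rw [Matrix.map_apply]
    exact norm_sg (hs _ _ hij)
  · rw [map_mul_int, hKK]
    ext i j
    simp only [Matrix.smul_apply, Matrix.map_apply, Matrix.one_apply, smul_eq_mul]
    split_ifs <;> simp

end Pool.Agent.Y342.SK
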