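import Pool.Agent.Y342.SK.Base
import Pool.Agent.H108R3.Had.P7

/-!
# Skew conference matrices from gadgets and complementary sequences
-/

set_option autoImplicit false

namespace Pool.Agent.Y342.SK

open Matrix Finset
open scoped Kronecker
open Pool.Agent.H108R3.Had (IsPU PU PUk evM P7_sum_range)

/-- `K` is a skew conference matrix -/
structure IsSkew {ι : Type} [Fintype ι] [DecidableEq ι] (K : Matrix ι ι ℤ) : Prop where
  diag : ∀ x, K x x = 0
  sign : ∀ x y, x ≠ y → Sg (K x y)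
  skew : Kᵀ = -K
  sq : K * K = (1 - (Fintype.card ι : ℤ)) • (1 : Matrix ι ι ℤ)

/-- there is a skew conference matrix of order `m` (equivalently, a skew-Hadamard matrix) -/
def SkewC (m : ℕ) : Prop := ∃ K : Matrix (Fin m) (Fin m) ℤ, IsSkew K

theorem IsSkew.skewC {ι : Type} [Fintype ι] [DecidableEq ι] {K : Matrix ι ι ℤ} (h : IsSkew K)
    {m : ℕ} (hm : Fintype.card ι = m) : SkewC m := by
  let e : Fin m ≃ ι := (Fintype.equivFinOfCardEq hm).symm
  refine ⟨K.submatrix e e, ⟨fun x => h.diag _, fun x y hxy => h.sign _ _ fun h' =>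
    hxy (e.injective h'), ?_, ?_⟩⟩
  · rw [transpose_submatrix, h.skew]; rfl
  · rw [submatrix_mul_equiv, h.sq, Fintype.card_fin, hm]
    ext i j
    rw [Matrix.submatrix_apply, Matrix.smul_apply, Matrix.smul_apply, Matrix.one_apply, Matrix.one_apply]
    by_cases hij : i = j
    · rw [if_pos hij, if_pos (congrArg e hij)]
    · rw [if_neg hij, if_neg (fun h => hij (e.injective h))]

/-- doubling -/
theorem SkewC.double {m : ℕ} (h : SkewC m) : SkewC (2 * m) := by
  obtain ⟨K, h⟩ := h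
  have key : IsSkew (hh ⊗ₖ K + ep ⊗ₖ (1 : Matrix (Fin m) (Fin m) ℤ)) := by
    refine ⟨?_, ?_, ?_, ?_⟩
    · rintro ⟨i, x⟩
      simp only [Matrix.add_apply, kroneckerMap_apply]
      rw [h.diag, ep_self]; ring
    · rintro ⟨i, x⟩ ⟨j, y⟩ hne
      simp only [Matrix.add_apply, kroneckerMap_apply]
      by_cases hxy : x = y
      · subst hxy
        rw [h.diag, mul_zero, zero_add, one_apply_eq, mul_one]
        exact ep_ne _ _ fun h' => hne (by rw [h'])
      · rw [one_apply_ne hxy, mul_zero, add_zero]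
        exact (hh_sg _ _).mul (h.sign _ _ hxy)
    · rw [transpose_add, ← kroneckerMap_transpose, ← kroneckerMap_transpose, transpose_one, hhT,
        epT, h.skew]
      ext i j
      simp only [Matrix.add_apply, Matrix.neg_apply, kroneckerMap_apply]
      ring
    · have h1 : Rel (-1) (hh ⊗ₖ K) (ep ⊗ₖ (1 : Matrix (Fin m) (Fin m) ℤ)) := by
        simpa using Gad.hh_ep.kron (Rel.one_right K)
      rw [sq_add h1, ← mul_kronecker_mul, ← mul_kronecker_mul, h.sq, hh_hh, ep_ep, one_mul]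
      have e1 : (-1 : Matrix (Fin 2) (Fin 2) ℤ) = (-1 : ℤ) • 1 := by simp
      rw [e1, smul_one_kron, smul_kronecker, one_kronecker_one, ← add_smul, Fintype.card_prod,
        Fintype.card_fin, Fintype.card_fin]
      congr 1
      push_cast
      ring
  exact key.skewC (by rw [Fintype.card_prod, Fintype.card_fin, Fintype.card_fin])

theorem SkewC.pow {m : ℕ} (h : SkewC m) : ∀ t : ℕ, SkewC (2 ^ t * m)
  | 0 => by simpa using h
  | t + 1 => by
    have := (h.pow t).double
    rwa [← mul_assoc, ← pow_succ'] at this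

section corr

theorem entry {κ : Type} [Fintype κ] [DecidableEq κ] {S q : ℕ} [NeZero q]
    {W : ℕ → κ → κ → ℤ} (hW : IsPU S W) (i : κ) (d : ZMod q) :
    ∑ j, ∑ n ∈ range S, ∑ m ∈ range S, (W n i j * W m i j) *
      (if (n : ZMod q) - m = d then 1 else 0) =
      if d = 0 then ((Fintype.card κ * S : ℕ) : ℤ) else 0 := by
  let u : AddMonoidAlgebra ℤ (ZMod q) := AddMonoidAlgebra.single 1 1
  let v : AddMonoidAlgebra ℤ (ZMod q) := AddMonoidAlgebra.single (-1) 1
  have huv : u * v = 1 := by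
    change AddMonoidAlgebra.single (1 : ZMod q) (1 : ℤ) * AddMonoidAlgebra.single (-1) 1 = 1
    rw [AddMonoidAlgebra.single_mul_single, add_neg_cancel, mul_one]
    rfl
  have h := hW.left (AddMonoidAlgebra ℤ (ZMod q)) u v huv
  have h1 := congrFun (congrFun h i) i
  rw [Matrix.mul_apply] at h1
  have h2 : ∀ n m : ℕ, u ^ n * v ^ m = AddMonoidAlgebra.single ((n : ZMod q) - m) (1 : ℤ) := by
    intro n m
    change AddMonoidAlgebra.single (1 : ZMod q) (1 : ℤ) ^ n *
      AddMonoidAlgebra.single (-1 : ZMod q) (1 : ℤ) ^ m = _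
    rw [AddMonoidAlgebra.single_pow, AddMonoidAlgebra.single_pow,
      AddMonoidAlgebra.single_mul_single, one_pow, one_pow, mul_one]
    congr 1
    rw [nsmul_eq_mul, nsmul_eq_mul, mul_one, mul_neg, mul_one, sub_eq_add_neg]
  have h3 : ∀ j, evM W S u i j * (evM W S v)ᵀ j i = ∑ n ∈ range S, ∑ m ∈ range S,
      (W n i j * W m i j) • AddMonoidAlgebra.single ((n : ZMod q) - m) (1 : ℤ) := by
    intro j
    change (∑ n ∈ range S, ((W n i j : ℤ) : AddMonoidAlgebra ℤ (ZMod q)) * u ^ n) *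
      (∑ n ∈ range S, ((W n i j : ℤ) : AddMonoidAlgebra ℤ (ZMod q)) * v ^ n) = _
    rw [Finset.sum_mul_sum]
    refine Finset.sum_congr rfl fun n _ => Finset.sum_congr rfl fun m _ => ?_
    rw [← h2, zsmul_eq_mul, Int.cast_mul]
    ring
  have h4 := congrArg (fun x : AddMonoidAlgebra ℤ (ZMod q) => x.coeff d) h1
  simp only [h3] at h4
  have h5 : ∀ (z : ℤ) (n m : ℕ), (z • AddMonoidAlgebra.single ((n : ZMod q) - m) (1 : ℤ)).coeff d =
      z * (if (n : ZMod q) - m = d then 1 else 0) := by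
    intro z n m
    rw [AddMonoidAlgebra.coeff_smul_apply, AddMonoidAlgebra.coeff_single, Finsupp.single_apply, smul_eq_mul]
  simp only [AddMonoidAlgebra.coeff_sum, Finsupp.finsetSum_apply, h5] at h4
  rw [h4, Matrix.smul_apply, Matrix.one_apply, if_pos rfl, smul_eq_mul, mul_one,
    AddMonoidAlgebra.natCast_def, AddMonoidAlgebra.coeff_single, Finsupp.single_apply]
  by_cases hd : d = 0
  · rw [if_pos hd, if_pos hd.symm]
  · rw [if_neg hd, if_neg (Ne.symm hd)]

/-- the periodic function of a sequence placed at `1, …, S` -/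
def fS (q S : ℕ) (X : ℕ → ℤ) (d : ZMod q) : ℤ :=
  ∑ n ∈ range S, X n * (if ((n : ZMod q) + 1) = d then 1 else 0)

theorem corr {q S : ℕ} [NeZero q] (X : ℕ → ℤ) (i j : ZMod q) :
    ∑ b : ZMod q, fS q S X (i - b) * fS q S X (j - b) =
      ∑ n ∈ range S, ∑ m ∈ range S, (X n * X m) * (if (n : ZMod q) - m = i - j then 1 else 0) := by
  unfold fS
  simp only [Finset.sum_mul_sum]
  rw [Finset.sum_comm]
  refine Finset.sum_congr rfl fun n _ => ?_
  rw [Finset.sum_comm]
  refine Finset.sum_congr rfl fun m _ => ?_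
  rw [Finset.sum_eq_single (i - n - 1)]
  · by_cases h : (n : ZMod q) - m = i - j
    · rw [if_pos h, if_pos (by ring), if_pos]
      · ring
      · have : (m : ZMod q) = n - (i - j) := by rw [← h]; ring
        rw [this]; ring
    · rw [if_neg h, if_pos (by ring), if_neg]
      · ring
      · intro h'
        apply h
        have : (m : ZMod q) = j - (i - n - 1) - 1 := by rw [← h']; ring
        rw [this]; ring
  · intro b _ hb
    rw [if_neg]
    · ring
    · intro h
      apply hb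
      have : i = (n : ZMod q) + 1 + b := by rw [h]; ring
      rw [this]; ring
  · intro h
    exact absurd (mem_univ _) h

theorem cast_succ (q n : ℕ) : ((n : ZMod q) + 1) = ((n + 1 : ℕ) : ZMod q) := by push_cast; ring

theorem fS_low {q S : ℕ} [NeZero q] (hq : q = 2 * S + 1) (X : ℕ → ℤ) (d : ZMod q)
    (h1 : 1 ≤ d.val) (h2 : d.val ≤ S) : fS q S X d = X (d.val - 1) := by
  unfold fS
  have hd : (((d.val - 1 : ℕ) : ZMod q) + 1) = d := by
    rw [cast_succ, Nat.sub_add_cancel h1, ZMod.natCast_zmod_val]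
  rw [Finset.sum_eq_single (d.val - 1)]
  · rw [if_pos hd, mul_one]
  · intro n hn hne
    rw [if_neg, mul_zero]
    intro h
    apply hne
    have h3 := congrArg ZMod.val h
    rw [cast_succ, ZMod.val_cast_of_lt (by rw [mem_range] at hn; omega)] at h3
    omega
  · intro h
    exact absurd (mem_range.2 (by omega)) h

theorem fS_high {q S : ℕ} [NeZero q] (hq : q = 2 * S + 1) (X : ℕ → ℤ) (d : ZMod q)
    (h : d.val = 0 ∨ S < d.val) : fS q S X d = 0 := by
  unfold fS
  refine Finset.sum_eq_zero fun n hn => ?_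
  rw [if_neg, mul_zero]
  intro h'
  have h3 := congrArg ZMod.val h'
  rw [cast_succ, ZMod.val_cast_of_lt (by rw [mem_range] at hn; omega)] at h3
  rw [mem_range] at hn
  omega

end corr

section asm

variable {ι κ : Type} [Fintype ι] [DecidableEq ι] [Fintype κ] [DecidableEq κ] (G : Gad ι κ)
variable {q : ℕ} [NeZero q] (C : κ → Matrix (ZMod q) (ZMod q) ℤ)

/-- the sum `∑ A a ⊗ C a` -/
def Qm : Matrix (ι × ZMod q) (ι × ZMod q) ℤ := ∑ a, G.A a ⊗ₖ C a

/-- the matrix -/
def Km : Matrix (ι × ZMod q) (ι × ZMod q) ℤ :=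
  G.D ⊗ₖ (1 : Matrix (ZMod q) (ZMod q) ℤ) + (Qm G C - (Qm G C)ᵀ)

theorem QmT : (Qm G C)ᵀ = ∑ a, (G.A a)ᵀ ⊗ₖ (C a)ᵀ := by
  unfold Qm
  rw [transpose_sum]
  exact Finset.sum_congr rfl fun a _ => (kroneckerMap_transpose _ _ _).symm

theorem Qm_sq (hC : ∀ a b, C a * C b = C b * C a) : Qm G C * Qm G C = 0 := by
  have h1 : Qm G C * Qm G C = ∑ a, ∑ b, (G.A a * G.A b) ⊗ₖ (C a * C b) := by
    unfold Qm
    rw [Finset.sum_mul]
    refine Finset.sum_congr rfl fun a _ => ?_
    rw [Finset.mul_sum]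
    exact Finset.sum_congr rfl fun b _ => (mul_kronecker_mul _ _ _ _).symm
  have h2 : Qm G C * Qm G C = -(Qm G C * Qm G C) := by
    conv_lhs => rw [h1, Finset.sum_comm]
    rw [h1, ← Finset.sum_neg_distrib]
    refine Finset.sum_congr rfl fun a _ => ?_
    rw [← Finset.sum_neg_distrib]
    refine Finset.sum_congr rfl fun b _ => ?_
    have h3 := G.AA b a
    unfold Rel at h3
    rw [h3, hC b a, smul_kronecker, neg_one_smul]
  ext i j
  have h4 := congrFun (congrFun h2 i) j
  rw [Matrix.neg_apply] at h4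
  rw [Matrix.zero_apply]
  linarith

theorem Qm_QmT (hC : ∀ a b, C a * (C b)ᵀ = (C b)ᵀ * C a) {s : ℤ}
    (hs : ∑ a, C a * (C a)ᵀ = s • (1 : Matrix (ZMod q) (ZMod q) ℤ)) :
    Qm G C * (Qm G C)ᵀ + (Qm G C)ᵀ * Qm G C =
      (G.c * s) • (1 : Matrix (ι × ZMod q) (ι × ZMod q) ℤ) := by
  have h1 : Qm G C * (Qm G C)ᵀ = ∑ a, ∑ b, (G.A a * (G.A b)ᵀ) ⊗ₖ (C a * (C b)ᵀ) := by
    rw [QmT]
    unfold Qm
    rw [Finset.sum_mul]
    refine Finset.sum_congr rfl fun a _ => ?_
    rw [Finset.mul_sum]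
    exact Finset.sum_congr rfl fun b _ => (mul_kronecker_mul _ _ _ _).symm
  have h2 : (Qm G C)ᵀ * Qm G C = ∑ a, ∑ b, ((G.A b)ᵀ * G.A a) ⊗ₖ (C a * (C b)ᵀ) := by
    rw [QmT]
    unfold Qm
    rw [Finset.mul_sum]
    refine Finset.sum_congr rfl fun a _ => ?_
    rw [Finset.sum_mul]
    refine Finset.sum_congr rfl fun b _ => ?_
    rw [hC a b]
    exact (mul_kronecker_mul _ _ _ _).symm
  rw [h1, h2, ← Finset.sum_add_distrib]
  have h3 : ∀ a, (∑ b, (G.A a * (G.A b)ᵀ) ⊗ₖ (C a * (C b)ᵀ)) +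
      (∑ b, ((G.A b)ᵀ * G.A a) ⊗ₖ (C a * (C b)ᵀ)) =
      (G.c • (1 : Matrix ι ι ℤ)) ⊗ₖ (C a * (C a)ᵀ) := by
    intro a
    rw [← Finset.sum_add_distrib]
    rw [Finset.sum_eq_single a]
    · rw [← add_kronecker, G.AT, if_pos rfl]
    · intro b _ hb
      rw [← add_kronecker, G.AT, if_neg (Ne.symm hb), zero_kronecker]
    · intro h; exact absurd (mem_univ _) h
  rw [Finset.sum_congr rfl fun a _ => h3 a]
  have h4 : ∑ a, (G.c • (1 : Matrix ι ι ℤ)) ⊗ₖ (C a * (C a)ᵀ) =
      (G.c • (1 : Matrix ι ι ℤ)) ⊗ₖ (∑ a, C a * (C a)ᵀ) := by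
    ext i j
    simp only [Matrix.sum_apply, kroneckerMap_apply, Finset.mul_sum]
  rw [h4, hs, smul_one_kron]

theorem Km_sq (hC : ∀ a b, C a * C b = C b * C a) (hC' : ∀ a b, C a * (C b)ᵀ = (C b)ᵀ * C a)
    {s : ℤ} (hs : ∑ a, C a * (C a)ᵀ = s • (1 : Matrix (ZMod q) (ZMod q) ℤ)) :
    Km G C * Km G C = (1 - (Fintype.card ι : ℤ) - G.c * s) •
      (1 : Matrix (ι × ZMod q) (ι × ZMod q) ℤ) := by
  have h1 := Qm_sq G C hC
  have h2 := Qm_QmT G C hC' hs
  have h3 : (Qm G C)ᵀ * (Qm G C)ᵀ = 0 := by rw [← transpose_mul, h1, transpose_zero]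
  have h4 : Rel (-1) (G.D ⊗ₖ (1 : Matrix (ZMod q) (ZMod q) ℤ)) (Qm G C) := by
    unfold Rel Qm
    rw [Finset.mul_sum, Finset.sum_mul, Finset.smul_sum]
    refine Finset.sum_congr rfl fun a _ => ?_
    have := (G.DA a).kron (Rel.one_left (C a))
    unfold Rel at this
    simpa using this
  have h5 : Rel (-1) (G.D ⊗ₖ (1 : Matrix (ZMod q) (ZMod q) ℤ)) (Qm G C)ᵀ := by
    have := h4.transpose (by norm_num)
    unfold Rel at this ⊢
    rw [← kroneckerMap_transpose, transpose_one, G.DT] at this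
    have e : (-G.D) ⊗ₖ (1 : Matrix (ZMod q) (ZMod q) ℤ) = -(G.D ⊗ₖ (1 : Matrix (ZMod q) (ZMod q) ℤ)) := by
      ext i j; simp [kroneckerMap_apply]
    rw [e, neg_mul, mul_neg, smul_neg, neg_inj] at this
    exact this
  have h6 : Rel (-1) (G.D ⊗ₖ (1 : Matrix (ZMod q) (ZMod q) ℤ)) (Qm G C - (Qm G C)ᵀ) := by
    unfold Rel at *
    rw [mul_sub, sub_mul, h4, h5, smul_sub]
  unfold Km
  rw [sq_add h6, ← mul_kronecker_mul, G.DD, one_mul, smul_kronecker, one_kronecker_one]
  have h7 : (Qm G C - (Qm G C)ᵀ) * (Qm G C - (Qm G C)ᵀ) =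
      -(Qm G C * (Qm G C)ᵀ + (Qm G C)ᵀ * Qm G C) := by
    rw [sub_mul, mul_sub, mul_sub, h1, h3]
    abel
  rw [h7, h2, ← neg_smul, ← add_smul, sub_eq_add_neg (1 - (Fintype.card ι : ℤ))]

include G in
/-- gadgets and para-unitary matrices give skew conference matrices -/
theorem skew_of (κ' : Type) [Fintype κ'] [DecidableEq κ'] (hκ : Fintype.card κ = Fintype.card κ')
    [Nonempty κ'] {S : ℕ} (h : PU κ' S) : SkewC (Fintype.card ι * (2 * S + 1)) := by
  obtain ⟨W, hW⟩ := h
  obtain ⟨i₀⟩ := (inferInstance : Nonempty κ')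
  let e : κ ≃ κ' := Fintype.equivOfCardEq hκ
  obtain ⟨q, hq⟩ : ∃ q, q = 2 * S + 1 := ⟨_, rfl⟩
  have : NeZero q := ⟨by omega⟩
  let f : κ → ZMod q → ℤ := fun a => fS q S (fun n => W n i₀ (e a))
  let C : κ → Matrix (ZMod q) (ZMod q) ℤ := fun a => circulant (f a)
  have hT : ∀ a, (C a)ᵀ = circulant (fun d => f a (-d)) := fun a => transpose_circulant _
  have hC : ∀ a b, C a * C b = C b * C a := fun a b => circulant_mul_comm _ _
  have hC' : ∀ a b, C a * (C b)ᵀ = (C b)ᵀ * C a := fun a b => by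
    rw [hT]; exact circulant_mul_comm _ _
  have hs : ∑ a, C a * (C a)ᵀ = ((Fintype.card κ * S : ℕ) : ℤ) • (1 : Matrix (ZMod q) (ZMod q) ℤ) := by
    ext i j
    rw [Matrix.sum_apply]
    have h1 : ∀ a, (C a * (C a)ᵀ) i j = ∑ n ∈ range S, ∑ m ∈ range S,
        (W n i₀ (e a) * W m i₀ (e a)) * (if (n : ZMod q) - m = i - j then 1 else 0) := by
      intro a
      rw [Matrix.mul_apply, ← corr (fun n => W n i₀ (e a)) i j]
      rfl
    rw [Finset.sum_congr rfl fun a _ => h1 a]
    rw [Equiv.sum_comp e (fun a => ∑ n ∈ range S, ∑ m ∈ range S,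
        (W n i₀ a * W m i₀ a) * (if (n : ZMod q) - m = i - j then 1 else 0)), entry hW, hκ,
      Matrix.smul_apply, Matrix.one_apply, smul_eq_mul]
    by_cases hij : i = j
    · rw [if_pos (by rw [hij, sub_self]), if_pos hij, mul_one]
    · rw [if_neg (fun h => hij (sub_eq_zero.1 h)), if_neg hij, mul_zero]
  have hsq := Km_sq G C hC hC' hs
  have key : IsSkew (Km G C) := by
    have hent : ∀ (x y : ι) (i j : ZMod q), Km G C (x, i) (y, j) =
        (if i = j then G.D x y else 0) + ((∑ a, G.A a x y * f a (i - j)) -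
          ∑ a, G.A a y x * f a (j - i)) := by
      intro x y i j
      simp only [Km, Qm, Matrix.add_apply, Matrix.sub_apply, transpose_apply, Matrix.sum_apply,
        kroneckerMap_apply, Matrix.one_apply, mul_ite, mul_one, mul_zero]
      rfl
    have hf0 : ∀ a, f a 0 = 0 := fun a => fS_high hq _ _ (Or.inl ZMod.val_zero)
    refine ⟨?_, ?_, ?_, ?_⟩
    · rintro ⟨x, i⟩
      rw [hent, if_pos rfl, G.D0, sub_self]
      simp [hf0]
    · rintro ⟨x, i⟩ ⟨y, j⟩ hne
      rw [hent]
      by_cases hij : i = j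
      · subst hij
        rw [if_pos rfl, sub_self]
        simp only [hf0, mul_zero, Finset.sum_const_zero, sub_zero, add_zero]
        exact G.D1 _ _ fun h' => hne (by rw [h'])
      · rw [if_neg hij, zero_add]
        have hd : (i - j).val ≠ 0 := by
          rw [Ne, ZMod.val_eq_zero, sub_eq_zero]
          exact hij
        have hlt := ZMod.val_lt (i - j)
        have hneg : (j - i).val = q - (i - j).val := by
          have : j - i = -(i - j) := by ring
          rw [this, ZMod.neg_val, if_neg (sub_ne_zero.2 hij)]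
        by_cases hle : (i - j).val ≤ S
        · have h1 : ∀ a, f a (j - i) = 0 := fun a => fS_high hq _ _ (Or.inr (by omega))
          simp only [h1, mul_zero, Finset.sum_const_zero, sub_zero]
          obtain ⟨a, ha, hb⟩ := G.sup x y
          rw [Finset.sum_eq_single a]
          · refine ha.mul ?_
            have : f a (i - j) = W ((i - j).val - 1) i₀ (e a) := fS_low hq _ _ (by omega) hle
            rw [this]
            exact hW.sign _ (by omega) _ _
          · intro b _ hba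
            rw [hb b hba, zero_mul]
          · intro h; exact absurd (mem_univ _) h
        · have h1 : ∀ a, f a (i - j) = 0 := fun a => fS_high hq _ _ (Or.inr (by omega))
          simp only [h1, mul_zero, Finset.sum_const_zero, zero_sub]
          obtain ⟨a, ha, hb⟩ := G.sup y x
          refine Sg.neg ?_
          rw [Finset.sum_eq_single a]
          · refine ha.mul ?_
            have : f a (j - i) = W ((j - i).val - 1) i₀ (e a) :=
              fS_low hq _ _ (by omega) (by omega)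
            rw [this]
            exact hW.sign _ (by omega) _ _
          · intro b _ hba
            rw [hb b hba, zero_mul]
          · intro h; exact absurd (mem_univ _) h
    · unfold Km
      rw [transpose_add, transpose_sub, transpose_transpose, ← kroneckerMap_transpose,
        transpose_one, G.DT]
      ext i j
      simp only [Matrix.add_apply, Matrix.neg_apply, Matrix.sub_apply, kroneckerMap_apply]
      ring
    · rw [hsq, Fintype.card_prod, ZMod.card]
      congr 1
      have := G.hc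
      have e2 : G.c * ((Fintype.card κ * S : ℕ) : ℤ) = 2 * (Fintype.card ι : ℤ) * S := by
        push_cast
        linear_combination (S : ℤ) * this
      rw [e2, hq]
      push_cast
      ring
  exact key.skewC (by rw [Fintype.card_prod, ZMod.card, hq])

end asm

/-- skew conference matrices of order `2 ^ t * (2 S + 1)`, `t ≥ 5 * 2 ^ k - 1`, from `PUk k S` -/
theorem skew_of_PUk {k S : ℕ} (h : PUk k S) {t : ℕ} (ht : 5 * 2 ^ k - 1 ≤ t) :
    SkewC (2 ^ t * (2 * S + 1)) := by
  obtain ⟨ι, κ, i1, i2, i3, i4, h1, h2, ⟨G⟩⟩ := exists_gad k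
  have h3 := skew_of G (Fin (2 ^ k)) (by rw [h2, Fintype.card_fin]) h
  have h4 := h3.pow (t - (5 * 2 ^ k - 1))
  rw [h1, ← mul_assoc, ← pow_add, Nat.sub_add_cancel ht] at h4
  exact h4

end Pool.Agent.Y342.SK
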