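import Pool.Agent.Y342.SK.Gad

/-!
# The basic gadget

A gadget of order sixteen with one arm.
-/

set_option autoImplicit false

namespace Pool.Agent.Y342.SK

open Matrix Finset

/-- sign matrix from its bits -/
def bm (N : ℕ) (i j : Fin 16) : ℤ := if N.testBit (16 * i.val + j.val) then -1 else 1

/-- the arm -/
def bF : Matrix (Fin 16) (Fin 16) ℤ := Matrix.of fun i j => bm 84366815000887585609914919892339348610734828592893338484395549000445967487314 i j

/-- the skew conference matrix -/
def bD : Matrix (Fin 16) (Fin 16) ℤ := Matrix.of fun i j => if i = j then 0 else bm 19876245140041949139280250369123002897124859735851085282712596375379391561386 i j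

/-- the matrix `E` -/
def bE : Matrix (Fin 16) (Fin 16) ℤ := Matrix.of fun i j => bm 95040262176894125487158414317241311143238434094678875944233011507769379983650 i j

/-- the matrix `Y` -/
def bY : Matrix (Fin 16) (Fin 16) ℤ := Matrix.of fun i j => bm 4082053923583112148992811067998257302340575415000622555942439813187175338844 i j

theorem bm_sg (N : ℕ) (i j : Fin 16) : Sg (bm N i j) := by
  unfold bm Sg; split_ifs <;> simp

set_option maxRecDepth 100000 in
theorem q_FF : ∀ i j : Fin 16, ∑ k : Fin 16, bF i k * bF k j = 0 := by decide +kernel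

set_option maxRecDepth 100000 in
theorem q_FT : ∀ i j : Fin 16, ∑ k : Fin 16, (bF i k * bF j k + bF k i * bF k j) =
    if i = j then 32 else 0 := by decide +kernel

set_option maxRecDepth 100000 in
theorem q_DD : ∀ i j : Fin 16, ∑ k : Fin 16, bD i k * bD k j = if i = j then -15 else 0 := by
  decide +kernel

set_option maxRecDepth 100000 in
theorem q_DT : ∀ i j : Fin 16, bD j i = - bD i j := by decide +kernel

set_option maxRecDepth 100000 in
theorem q_ET : ∀ i j : Fin 16, bE j i - bE i j = 0 := by decide +kernel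

set_option maxRecDepth 100000 in
theorem q_YT : ∀ i j : Fin 16, bY j i - bY i j = 0 := by decide +kernel

set_option maxRecDepth 100000 in
theorem q_EE : ∀ i j : Fin 16, ∑ k : Fin 16, bE i k * bE k j = if i = j then 16 else 0 := by
  decide +kernel

set_option maxRecDepth 100000 in
theorem q_YY : ∀ i j : Fin 16, ∑ k : Fin 16, bY i k * bY k j = if i = j then 16 else 0 := by
  decide +kernel

set_option maxRecDepth 100000 in
theorem q_DF : ∀ i j : Fin 16, ∑ k : Fin 16, (bD i k * bF k j + bF i k * bD k j) = 0 := by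
  decide +kernel

set_option maxRecDepth 100000 in
theorem q_DE : ∀ i j : Fin 16, ∑ k : Fin 16, (bD i k * bE k j + bE i k * bD k j) = 0 := by
  decide +kernel

set_option maxRecDepth 100000 in
theorem q_DY : ∀ i j : Fin 16, ∑ k : Fin 16, (bD i k * bY k j + bY i k * bD k j) = 0 := by
  decide +kernel

set_option maxRecDepth 100000 in
theorem q_EF : ∀ i j : Fin 16, ∑ k : Fin 16, (bE i k * bF k j + bF i k * bE k j) = 0 := by
  decide +kernel

set_option maxRecDepth 100000 in
theorem q_YF : ∀ i j : Fin 16, ∑ k : Fin 16, (bY i k * bF k j - bF i k * bY k j) = 0 := by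
  decide +kernel

set_option maxRecDepth 100000 in
theorem q_EY : ∀ i j : Fin 16, ∑ k : Fin 16, (bE i k * bY k j - bY i k * bE k j) = 0 := by
  decide +kernel

theorem rel_neg {X Y : Matrix (Fin 16) (Fin 16) ℤ}
    (h : ∀ i j : Fin 16, ∑ k : Fin 16, (X i k * Y k j + Y i k * X k j) = 0) : Rel (-1) X Y := by
  unfold Rel
  ext i j
  have := h i j
  rw [Finset.sum_add_distrib] at this
  rw [Matrix.mul_apply, Matrix.smul_apply, Matrix.mul_apply, smul_eq_mul]
  linarith

theorem rel_pos {X Y : Matrix (Fin 16) (Fin 16) ℤ}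
    (h : ∀ i j : Fin 16, ∑ k : Fin 16, (X i k * Y k j - Y i k * X k j) = 0) : Rel 1 X Y := by
  unfold Rel
  ext i j
  have := h i j
  rw [Finset.sum_sub_distrib] at this
  rw [Matrix.mul_apply, Matrix.smul_apply, Matrix.mul_apply, smul_eq_mul]
  linarith

theorem sq_eq {X : Matrix (Fin 16) (Fin 16) ℤ} {c : ℤ}
    (h : ∀ i j : Fin 16, ∑ k : Fin 16, X i k * X k j = if i = j then c else 0) :
    X * X = c • (1 : Matrix (Fin 16) (Fin 16) ℤ) := by
  ext i j
  rw [Matrix.mul_apply, h, Matrix.smul_apply, Matrix.one_apply]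
  by_cases hij : i = j <;> simp [hij]

/-- the basic gadget -/
def base : Gad (Fin 16) (Fin 1) where
  D := bD
  A := fun _ => bF
  E := bE
  Y := bY
  c := 32
  D0 := fun x => by simp [bD]
  D1 := fun x y h => by
    rw [bD, Matrix.of_apply, if_neg h]
    exact bm_sg _ _ _
  DT := by
    ext i j
    exact q_DT i j
  DD := sq_eq q_DD
  sup := fun x y => ⟨0, bm_sg _ _ _, fun b hb => absurd (Subsingleton.elim b 0) hb⟩
  DA := fun _ => rel_neg q_DF
  AA := fun _ _ => by
    unfold Rel
    have h : bF * bF = 0 := by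
      ext i j
      rw [Matrix.mul_apply]
      exact q_FF i j
    rw [h, smul_zero]
  AT := fun a b => by
    rw [if_pos (Subsingleton.elim a b)]
    ext i j
    have := q_FT i j
    rw [Finset.sum_add_distrib] at this
    rw [Matrix.add_apply, Matrix.mul_apply, Matrix.mul_apply, Matrix.smul_apply, Matrix.one_apply]
    simp only [Matrix.transpose_apply]
    rw [this]
    by_cases hij : i = j <;> simp [hij]
  hc := by simp
  ET := by
    ext i j
    exact sub_eq_zero.1 (q_ET i j)
  Es := fun _ _ => bm_sg _ _ _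
  EE := sq_eq q_EE
  DE := rel_neg q_DE
  EA := fun _ => rel_neg q_EF
  YT := by
    ext i j
    exact sub_eq_zero.1 (q_YT i j)
  Ys := fun _ _ => bm_sg _ _ _
  YY := sq_eq q_YY
  DY := rel_neg q_DY
  YA := fun _ => rel_pos q_YF
  EY := rel_pos q_EY

/-- gadgets with `2 ^ k` arms of order `2 ^ (5 * 2 ^ k - 1)` -/
theorem exists_gad (k : ℕ) : ∃ (ι κ : Type) (_ : Fintype ι) (_ : DecidableEq ι) (_ : Fintype κ)
    (_ : DecidableEq κ), Fintype.card ι = 2 ^ (5 * 2 ^ k - 1) ∧ Fintype.card κ = 2 ^ k ∧
      Nonempty (Gad ι κ) := by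
  induction k with
  | zero => exact ⟨Fin 16, Fin 1, inferInstance, inferInstance, inferInstance, inferInstance,
      by simp, by simp, ⟨base⟩⟩
  | succ k ih =>
    obtain ⟨ι, κ, i1, i2, i3, i4, h1, h2, ⟨G⟩⟩ := ih
    refine ⟨Fin 2 × (ι × ι), Fin 2 × κ, inferInstance, inferInstance, inferInstance,
      inferInstance, ?_, ?_, ⟨G.step⟩⟩
    · rw [Fintype.card_prod, Fintype.card_prod, Fintype.card_fin, h1, ← pow_add, ← pow_succ']
      congr 1
      have : 1 ≤ 2 ^ k := Nat.one_le_two_pow
      rw [pow_succ]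
      omega
    · rw [Fintype.card_prod, Fintype.card_fin, h2, pow_succ']

end Pool.Agent.Y342.SK
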