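import Pool.Agent.Y342.SK.Main

/-!
# The core of a skew conference matrix, and doubly regular tournaments
-/

set_option autoImplicit false

namespace Pool.Agent.Y342.SK

open Matrix Finset

/-- a skew core of order `v` -/
structure IsCore {v : ℕ} (S : Fin v → Fin v → ℤ) : Prop where
  diag : ∀ x, S x x = 0
  sign : ∀ x y, x ≠ y → Sg (S x y)
  skew : ∀ x y, S y x = - S x y
  row : ∀ x, ∑ y, S x y = 0
  mul : ∀ x y, ∑ z, S x z * S y z = (if x = y then (v : ℤ) else 0) - 1

theorem Sg.sq {x : ℤ} (h : Sg x) : x * x = 1 := by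
  rcases h with rfl | rfl <;> norm_num

theorem exists_core {v : ℕ} (h : SkewC (v + 1)) : ∃ S : Fin v → Fin v → ℤ, IsCore S := by
  obtain ⟨K, h⟩ := h
  have hT : ∀ i j, K j i = - K i j := fun i j => congrFun (congrFun h.skew i) j
  have hs : ∀ x : Fin v, Sg (K 0 x.succ) := fun x => h.sign _ _ (Fin.succ_ne_zero x).symm
  have hKK : ∀ i j, ∑ k, K i k * K j k = if i = j then (v : ℤ) else 0 := by
    intro i j
    have h1 := congrFun (congrFun h.sq i) j
    rw [Matrix.mul_apply, Matrix.smul_apply, Matrix.one_apply, Fintype.card_fin] at h1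
    have h2 : ∑ k, K i k * K j k = - ∑ k, K i k * K k j := by
      rw [← Finset.sum_neg_distrib]
      exact Finset.sum_congr rfl fun k _ => by rw [hT k j]; ring
    rw [h2, h1]
    by_cases hij : i = j
    · rw [if_pos hij, if_pos hij]
      push_cast
      simp
    · rw [if_neg hij, if_neg hij]; simp
  refine ⟨fun x y => K 0 x.succ * K 0 y.succ * K x.succ y.succ, ?_, ?_, ?_, ?_, ?_⟩
  · intro x
    simp only [h.diag, mul_zero]
  · intro x y hxy
    exact ((hs x).mul (hs y)).mul (h.sign _ _ fun h' => hxy (Fin.succ_injective _ h'))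
  · intro x y
    rw [hT x.succ y.succ]; ring
  · intro x
    have h1 := hKK x.succ 0
    rw [if_neg (Fin.succ_ne_zero x), Fin.sum_univ_succ, h.diag, mul_zero, zero_add] at h1
    have h2 : ∑ y : Fin v, K 0 x.succ * K 0 y.succ * K x.succ y.succ =
        K 0 x.succ * ∑ y : Fin v, K x.succ y.succ * K 0 y.succ := by
      rw [Finset.mul_sum]
      exact Finset.sum_congr rfl fun y _ => by ring
    rw [h2, h1, mul_zero]
  · intro x y
    have h1 := hKK x.succ y.succ
    rw [Fin.sum_univ_succ, hT 0 x.succ, hT 0 y.succ] at h1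
    have h2 : ∑ z : Fin v, K 0 x.succ * K 0 z.succ * K x.succ z.succ *
        (K 0 y.succ * K 0 z.succ * K y.succ z.succ) =
        K 0 x.succ * K 0 y.succ * ∑ z : Fin v, K x.succ z.succ * K y.succ z.succ := by
      rw [Finset.mul_sum]
      refine Finset.sum_congr rfl fun z _ => ?_
      have h3 := (hs z).sq
      linear_combination (K 0 x.succ * K 0 y.succ * K x.succ z.succ * K y.succ z.succ) * h3
    have h4 : ∑ z : Fin v, K x.succ z.succ * K y.succ z.succ =
        (if x.succ = y.succ then (v : ℤ) else 0) - K 0 x.succ * K 0 y.succ := by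
      rw [← h1]; ring
    rw [h2, h4]
    have hx := (hs x).sq
    have hy := (hs y).sq
    by_cases hxy : x = y
    · subst hxy
      rw [if_pos rfl, if_pos rfl]
      linear_combination ((v : ℤ) - 1 - K 0 x.succ * K 0 x.succ) * hx
    · rw [if_neg (fun h' => hxy (Fin.succ_injective _ h')), if_neg hxy]
      linear_combination (-(K 0 x.succ * K 0 x.succ)) * hy - hx

/-- doubly regular tournaments -/
def Drt (v : ℕ) : Prop := ∃ R : Fin v → Fin v → Prop, (∀ i, ¬ R i i) ∧
  (∀ i j, i ≠ j → (R i j ↔ ¬ R j i)) ∧ ∃ m : ℕ, ∀ i j, i ≠ j → {k : Fin v | R i k ∧ R j k}.ncard = m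

theorem drt_of_core {v : ℕ} {S : Fin v → Fin v → ℤ} (h : IsCore S) : Drt v := by
  refine ⟨fun x y => S x y = 1, fun x => ?_, fun x y hxy => ?_, (v - 3) / 4, fun x y hxy => ?_⟩
  · change ¬ (S x x = 1)
    rw [h.diag]; norm_num
  · change S x y = 1 ↔ ¬ (S y x = 1)
    rw [h.skew x y]
    rcases h.sign x y hxy with h1 | h1 <;> rw [h1] <;> norm_num
  · change {k : Fin v | S x k = 1 ∧ S y k = 1}.ncard = _
    have h1 : ∀ z, (1 + S x z) * (1 + S y z) = 4 * (if S x z = 1 ∧ S y z = 1 then 1 else 0) +
        ((if z = x then 1 + S y x else 0) + (if z = y then 1 + S x y else 0)) := by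
      intro z
      by_cases hzx : z = x
      · subst hzx
        rw [if_pos rfl, if_neg hxy, h.diag, if_neg (by norm_num)]
        ring
      · by_cases hzy : z = y
        · subst hzy
          rw [if_pos rfl, if_neg hzx, h.diag, if_neg (by norm_num)]
          ring
        · rw [if_neg hzx, if_neg hzy]
          rcases h.sign x z (Ne.symm hzx) with h2 | h2 <;>
            rcases h.sign y z (Ne.symm hzy) with h3 | h3 <;> rw [h2, h3] <;> norm_num
    have h2 : ∑ z, (1 + S x z) * (1 + S y z) = (v : ℤ) - 1 := by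
      have e : ∀ z, (1 + S x z) * (1 + S y z) = 1 + S x z + S y z + S x z * S y z := by
        intro z; ring
      rw [Finset.sum_congr rfl fun z _ => e z, Finset.sum_add_distrib, Finset.sum_add_distrib,
        Finset.sum_add_distrib, h.row, h.row, h.mul, if_neg hxy]
      simp
      ring
    rw [Finset.sum_congr rfl fun z _ => h1 z, Finset.sum_add_distrib, Finset.sum_add_distrib,
      ← Finset.mul_sum, Finset.sum_ite_eq' univ x, Finset.sum_ite_eq' univ y, if_pos (mem_univ _),
      if_pos (mem_univ _), h.skew x y, Finset.sum_boole] at h2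
    have h3 : {k : Fin v | S x k = 1 ∧ S y k = 1}.ncard =
        (univ.filter fun k : Fin v => S x k = 1 ∧ S y k = 1).card := by
      rw [← Set.ncard_coe_finset]
      congr 1
      ext k
      simp
    rw [h3]
    have h4 : 4 * (((univ.filter fun k : Fin v => S x k = 1 ∧ S y k = 1).card : ℕ) : ℤ) + 3 = v := by
      linarith
    omega

theorem main_drt : ∃ C : ℕ, 2 ≤ C ∧ ∀ n q t : ℕ, 0 < q → q ≤ Pool.Agent.W851.Had.tow n →
    2 ^ C ^ (n + 1) ≤ t → Drt (2 ^ t * q - 1) := by
  obtain ⟨C, hC, h⟩ := main_skew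
  refine ⟨C, hC, fun n q t hq hqn ht => ?_⟩
  have h1 := h n q t hq hqn ht
  have h2 : 0 < 2 ^ t * q := by positivity
  rw [← Nat.sub_add_cancel h2] at h1
  obtain ⟨S, hS⟩ := exists_core h1
  exact drt_of_core hS

end Pool.Agent.Y342.SK
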