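import Mathlib

/-!
# Equiangular tight frames of `2 M` vectors in dimension `M` from conference matrices
-/

set_option autoImplicit false

namespace Pool.Agent.Y342.SK

open Matrix Finset

variable {𝕜 : Type} [RCLike 𝕜]

theorem etf_of_conf {N M : ℕ} (hM : 0 < M) (hN : N = 2 * M) (S : Matrix (Fin N) (Fin N) 𝕜)
    (hS : S.IsHermitian) (hd : ∀ i, S i i = 0) (ho : ∀ i j, i ≠ j → ‖S i j‖ = 1)
    (hSS : S * S = ((N : 𝕜) - 1) • (1 : Matrix (Fin N) (Fin N) 𝕜)) :
    ∃ f : Fin N → EuclideanSpace 𝕜 (Fin M), (∀ i, ‖f i‖ = 1) ∧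
      (∀ x, ∑ i, ‖inner 𝕜 (f i) x‖ ^ 2 = 2 * ‖x‖ ^ 2) ∧
      (∀ i j, i ≠ j → ‖inner 𝕜 (f i) (f j)‖ = 1 / Real.sqrt ((N : ℝ) - 1)) := by
  classical
  have hN1 : (1 : ℝ) < N := by
    have : 1 < N := by omega
    exact_mod_cast this
  set c : ℝ := 1 / Real.sqrt ((N : ℝ) - 1) with hc
  have hs : 0 < Real.sqrt ((N : ℝ) - 1) := Real.sqrt_pos.2 (by linarith)
  have hc0 : 0 < c := by positivity
  have hc2 : c * c * ((N : ℝ) - 1) = 1 := by
    have := Real.mul_self_sqrt (by linarith : (0 : ℝ) ≤ (N : ℝ) - 1)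
    rw [hc]
    field_simp
    nlinarith
  set P : Matrix (Fin N) (Fin N) 𝕜 := (1 / 2 : 𝕜) • (1 + (c : 𝕜) • S) with hP
  have hPh : P.IsHermitian := by
    rw [Matrix.IsHermitian, hP, conjTranspose_smul, conjTranspose_add, conjTranspose_one,
      conjTranspose_smul, hS.eq]
    simp
  have hPP : P * P = P := by
    have h1 : (c : 𝕜) * (c : 𝕜) * ((N : 𝕜) - 1) = 1 := by
      have := congrArg (fun x : ℝ => (x : 𝕜)) hc2
      push_cast at this
      exact this
    rw [hP, smul_mul_smul_comm, add_mul, one_mul, mul_add, mul_one, smul_mul_smul_comm, hSS, smul_smul,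
      h1, one_smul]
    ext i j
    simp only [Matrix.smul_apply, Matrix.add_apply, smul_eq_mul]
    ring
  set L : EuclideanSpace 𝕜 (Fin N) →ₗ[𝕜] EuclideanSpace 𝕜 (Fin N) := toEuclideanLin P with hL
  have hLs : L.IsSymmetric := isSymmetric_toEuclideanLin_iff.2 hPh
  have hLL : ∀ x, L (L x) = L x := by
    intro x
    rw [hL, Matrix.toLpLin_apply, Matrix.toLpLin_apply, WithLp.ofLp_toLp, mulVec_mulVec, hPP]
  have hid : IsIdempotentElem L := LinearMap.ext hLL
  have htr : LinearMap.trace 𝕜 _ L = (M : 𝕜) := by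
    rw [hL, toEuclideanLin_eq_toLin_orthonormal, Matrix.trace_toLin_eq]
    rw [hP, trace_smul, trace_add, trace_one, trace_smul, Fintype.card_fin]
    have : S.trace = 0 := by
      simp only [Matrix.trace, Matrix.diag_apply, hd, Finset.sum_const_zero]
    rw [this, hN]
    push_cast
    simp
  have hfr : Module.finrank 𝕜 (LinearMap.range L) = M := by
    have h1 := (LinearMap.IsIdempotentElem.isProj_range L hid).trace
    rw [htr] at h1
    exact_mod_cast h1.symm
  let b := (stdOrthonormalBasis 𝕜 (LinearMap.range L)).reindex (finCongr hfr)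
  let φ := b.repr
  let e : Fin N → EuclideanSpace 𝕜 (Fin N) := fun i => EuclideanSpace.single i (1 : 𝕜)
  let g : Fin N → LinearMap.range L := fun i => ⟨L (e i), LinearMap.mem_range_self L _⟩
  have hgg : ∀ i j, inner 𝕜 (g i) (g j) = P i j := by
    intro i j
    rw [Submodule.coe_inner]
    change inner 𝕜 (L (e i)) (L (e j)) = _
    rw [hLs, hLL, hL]
    simp only [e, EuclideanSpace.inner_single_left, map_one, one_mul]
    rw [Matrix.toLpLin_apply]
    simp
  have h2 : Real.sqrt 2 * Real.sqrt 2 = 2 := Real.mul_self_sqrt (by norm_num)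
  have hn2 : ‖((Real.sqrt 2 : ℝ) : 𝕜)‖ = Real.sqrt 2 := by
    rw [RCLike.norm_ofReal, abs_of_nonneg (Real.sqrt_nonneg 2)]
  refine ⟨fun i => ((Real.sqrt 2 : ℝ) : 𝕜) • φ (g i), fun i => ?_, fun x => ?_, fun i j hij => ?_⟩
  · have h3 : ‖g i‖ ^ 2 = 1 / 2 := by
      have h6 : P i i = (((1 / 2 : ℝ)) : 𝕜) := by
        rw [hP]
        simp only [Matrix.smul_apply, Matrix.add_apply, Matrix.one_apply_eq, hd, smul_eq_mul,
          mul_zero, add_zero, mul_one]
        push_cast
        ring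
      rw [@norm_sq_eq_re_inner 𝕜, hgg, h6, RCLike.ofReal_re]
    rw [norm_smul, hn2, LinearIsometryEquiv.norm_map]
    have h4 : (Real.sqrt 2 * ‖g i‖) ^ 2 = 1 ^ 2 := by
      rw [mul_pow, h3, pow_two, h2]
      norm_num
    exact (sq_eq_sq₀ (by positivity) (by norm_num)).1 h4
  · obtain ⟨y, rfl⟩ := φ.surjective x
    have hy : L (y : EuclideanSpace 𝕜 (Fin N)) = y := by
      obtain ⟨z, hz⟩ := y.2
      rw [← hz, hLL]
    have h5 : ∀ i, ‖inner 𝕜 (((Real.sqrt 2 : ℝ) : 𝕜) • φ (g i)) (φ y)‖ ^ 2 =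
        2 * ‖(y : EuclideanSpace 𝕜 (Fin N)) i‖ ^ 2 := by
      intro i
      rw [inner_smul_left, LinearIsometryEquiv.inner_map_map, Submodule.coe_inner]
      change ‖_ * inner 𝕜 (L (e i)) (y : EuclideanSpace 𝕜 (Fin N))‖ ^ 2 = _
      rw [hLs, hy]
      simp only [e, EuclideanSpace.inner_single_left, map_one, one_mul]
      rw [norm_mul, mul_pow, RCLike.norm_conj, hn2, pow_two, h2]
    rw [Finset.sum_congr rfl fun i _ => h5 i, ← Finset.mul_sum, LinearIsometryEquiv.norm_map,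
      ← EuclideanSpace.norm_sq_eq]
    rfl
  · rw [inner_smul_left, inner_smul_right, LinearIsometryEquiv.inner_map_map, hgg, norm_mul, norm_mul,
      RCLike.norm_conj, hn2, ← mul_assoc, h2, hP]
    simp only [Matrix.smul_apply, Matrix.add_apply, Matrix.one_apply_ne hij, smul_eq_mul, zero_add,
      norm_mul, ho i j hij, mul_one, RCLike.norm_ofReal, abs_of_pos hc0]
    simp

end Pool.Agent.Y342.SK
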