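import Mathlib

/-!
# Gadgets for skew-Hadamard matrices

A gadget of order `n` with `r` arms: a skew conference matrix `D`, matrices `A a` (`a < r`) with
entries `0, ±1` whose supports partition the `n × n` positions, which satisfy the canonical
anticommutation relations and anticommute with `D`, and two commuting symmetric Hadamard matrices
`E`, `Y` which anticommute with `D`, such that `E` anticommutes and `Y` commutes with all arms.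
-/

set_option autoImplicit false

namespace Pool.Agent.Y342.SK

open Matrix Finset
open scoped Kronecker

/-- `X * Y = s • (Y * X)` -/
def Rel {ι : Type} [Fintype ι] (s : ℤ) (X Y : Matrix ι ι ℤ) : Prop := X * Y = s • (Y * X)

section rel

variable {ι κ : Type} [Fintype ι] [Fintype κ]

theorem Rel.kron {s t : ℤ} {X X' : Matrix ι ι ℤ} {Y Y' : Matrix κ κ ℤ} (h : Rel s X X')
    (h' : Rel t Y Y') : Rel (s * t) (X ⊗ₖ Y) (X' ⊗ₖ Y') := by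
  unfold Rel at *
  rw [← mul_kronecker_mul, ← mul_kronecker_mul, h, h', smul_kronecker, kronecker_smul, smul_smul]

theorem Rel.add_left {s : ℤ} {X X' Y : Matrix ι ι ℤ} (h : Rel s X Y) (h' : Rel s X' Y) :
    Rel s (X + X') Y := by
  unfold Rel at *
  rw [add_mul, mul_add, h, h', smul_add]

theorem Rel.add_right {s : ℤ} {X Y Y' : Matrix ι ι ℤ} (h : Rel s X Y) (h' : Rel s X Y') :
    Rel s X (Y + Y') := by
  unfold Rel at *
  rw [add_mul, mul_add, h, h', smul_add]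

theorem Rel.symm {s : ℤ} (hs : s * s = 1) {X Y : Matrix ι ι ℤ} (h : Rel s X Y) : Rel s Y X := by
  unfold Rel at *
  rw [h, smul_smul, hs, one_smul]

theorem Rel.refl (X : Matrix ι ι ℤ) : Rel 1 X X := by
  unfold Rel; rw [one_smul]

theorem Rel.one_left [DecidableEq ι] (X : Matrix ι ι ℤ) : Rel 1 1 X := by
  unfold Rel; rw [one_smul, one_mul, mul_one]

theorem Rel.one_right [DecidableEq ι] (X : Matrix ι ι ℤ) : Rel 1 X 1 := by
  unfold Rel; rw [one_smul, one_mul, mul_one]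

theorem Rel.transpose {s : ℤ} (hs : s * s = 1) {X Y : Matrix ι ι ℤ} (h : Rel s X Y) :
    Rel s Xᵀ Yᵀ := by
  unfold Rel at *
  have h1 := congrArg Matrix.transpose h
  rw [transpose_smul, transpose_mul, transpose_mul] at h1
  rw [h1, smul_smul, hs, one_smul]

end rel

/-- entries `±1` -/
def Sg (x : ℤ) : Prop := x = 1 ∨ x = -1

theorem Sg.mul {x y : ℤ} (hx : Sg x) (hy : Sg y) : Sg (x * y) := by
  rcases hx with rfl | rfl <;> rcases hy with rfl | rfl <;> simp [Sg]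

theorem Sg.neg {x : ℤ} (hx : Sg x) : Sg (-x) := by
  rcases hx with rfl | rfl <;> simp [Sg]

/-- a gadget -/
structure Gad (ι κ : Type) [Fintype ι] [DecidableEq ι] [Fintype κ] [DecidableEq κ] where
  /-- skew conference matrix -/
  D : Matrix ι ι ℤ
  /-- the arms -/
  A : κ → Matrix ι ι ℤ
  /-- Hadamard matrix -/
  E : Matrix ι ι ℤ
  /-- Hadamard matrix -/
  Y : Matrix ι ι ℤ
  /-- the constant -/
  c : ℤ
  D0 : ∀ x, D x x = 0
  D1 : ∀ x y, x ≠ y → Sg (D x y)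
  DT : Dᵀ = -D
  DD : D * D = (1 - (Fintype.card ι : ℤ)) • (1 : Matrix ι ι ℤ)
  sup : ∀ x y, ∃ a, Sg (A a x y) ∧ ∀ b, b ≠ a → A b x y = 0
  DA : ∀ a, Rel (-1) D (A a)
  AA : ∀ a b, Rel (-1) (A a) (A b)
  AT : ∀ a b, A a * (A b)ᵀ + (A b)ᵀ * A a = if a = b then c • (1 : Matrix ι ι ℤ) else 0
  hc : c * (Fintype.card κ : ℤ) = 2 * (Fintype.card ι : ℤ)
  ET : Eᵀ = E
  Es : ∀ x y, Sg (E x y)
  EE : E * E = (Fintype.card ι : ℤ) • (1 : Matrix ι ι ℤ)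
  DE : Rel (-1) D E
  EA : ∀ a, Rel (-1) E (A a)
  YT : Yᵀ = Y
  Ys : ∀ x y, Sg (Y x y)
  YY : Y * Y = (Fintype.card ι : ℤ) • (1 : Matrix ι ι ℤ)
  DY : Rel (-1) D Y
  YA : ∀ a, Rel 1 Y (A a)
  EY : Rel 1 E Y

/-- `ε` -/
def ep : Matrix (Fin 2) (Fin 2) ℤ := !![0, 1; -1, 0]

/-- `h` -/
def hh : Matrix (Fin 2) (Fin 2) ℤ := !![1, 1; 1, -1]

theorem ep_ep : ep * ep = -1 := by decide
theorem epT : epᵀ = -ep := by decide
theorem hhT : hhᵀ = hh := by decide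
theorem hh_hh : hh * hh = (2 : ℤ) • (1 : Matrix (Fin 2) (Fin 2) ℤ) := by decide
theorem ep_hh : Rel (-1) ep hh := by unfold Rel; decide

theorem hh_sg : ∀ i j, Sg (hh i j) := by
  intro i j; fin_cases i <;> fin_cases j <;> simp [Sg, hh]

theorem ep_ne : ∀ i j, i ≠ j → Sg (ep i j) := by
  intro i j; fin_cases i <;> fin_cases j <;> simp [Sg, ep]

theorem ep_self : ∀ i, ep i i = 0 := by
  decide

section sq

variable {ι : Type} [Fintype ι]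

theorem sq_add {X X' : Matrix ι ι ℤ} (h : Rel (-1) X X') :
    (X + X') * (X + X') = X * X + X' * X' := by
  unfold Rel at h
  rw [add_mul, mul_add, mul_add, h, neg_one_smul]
  abel

theorem smul_one_kron {κ : Type} [Fintype κ] [DecidableEq ι] [DecidableEq κ] (a b : ℤ) :
    (a • (1 : Matrix ι ι ℤ)) ⊗ₖ (b • (1 : Matrix κ κ ℤ)) = (a * b) • (1 : Matrix (ι × κ) (ι × κ) ℤ) := by
  rw [smul_kronecker, kronecker_smul, one_kronecker_one, smul_smul]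

end sq

namespace Gad

variable {ι κ : Type} [Fintype ι] [DecidableEq ι] [Fintype κ] [DecidableEq κ] (G : Gad ι κ)

/-- the new conference matrix -/
def stepD : Matrix (Fin 2 × (ι × ι)) (Fin 2 × (ι × ι)) ℤ :=
  (1 : Matrix (Fin 2) (Fin 2) ℤ) ⊗ₖ (G.D ⊗ₖ G.Y + (1 : Matrix ι ι ℤ) ⊗ₖ G.D) + ep ⊗ₖ (G.E ⊗ₖ G.E)

/-- the new arms -/
def stepA (p : Fin 2 × κ) : Matrix (Fin 2 × (ι × ι)) (Fin 2 × (ι × ι)) ℤ :=
  if p.1 = 0 then (1 : Matrix (Fin 2) (Fin 2) ℤ) ⊗ₖ (G.A p.2 ⊗ₖ G.Y) else ep ⊗ₖ (G.E ⊗ₖ G.A p.2)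

theorem stepA0 (a : κ) : G.stepA (0, a) = (1 : Matrix (Fin 2) (Fin 2) ℤ) ⊗ₖ (G.A a ⊗ₖ G.Y) := rfl

theorem stepA1 (a : κ) : G.stepA (1, a) = ep ⊗ₖ (G.E ⊗ₖ G.A a) := rfl

theorem AE (a : κ) : Rel (-1) (G.A a) G.E := (G.EA a).symm (by norm_num)
theorem AY (a : κ) : Rel 1 (G.A a) G.Y := (G.YA a).symm (by norm_num)
theorem AD (a : κ) : Rel (-1) (G.A a) G.D := (G.DA a).symm (by norm_num)
theorem ED : Rel (-1) G.E G.D := G.DE.symm (by norm_num)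
theorem YD : Rel (-1) G.Y G.D := G.DY.symm (by norm_num)
theorem YE : Rel 1 G.Y G.E := G.EY.symm (by norm_num)

theorem AtY (a : κ) : Rel 1 (G.A a)ᵀ G.Y := by
  have := (G.AY a).transpose (by norm_num)
  rwa [G.YT] at this

theorem AtE (a : κ) : Rel (-1) (G.A a)ᵀ G.E := by
  have := (G.AE a).transpose (by norm_num)
  rwa [G.ET] at this

theorem M_ED : Rel (-1) (G.D ⊗ₖ G.Y) ((1 : Matrix ι ι ℤ) ⊗ₖ G.D) := by
  simpa using (Rel.one_right G.D).kron G.YD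

/-- sign calculus for `D ⊗ Y + 1 ⊗ D` -/
theorem M_rel {P Q : Matrix ι ι ℤ} {s t : ℤ} (h1 : Rel s G.D P) (h2 : Rel t G.Y Q)
    (hst : s * t = -1) (h3 : Rel (-1) G.D Q) :
    Rel (-1) (G.D ⊗ₖ G.Y + (1 : Matrix ι ι ℤ) ⊗ₖ G.D) (P ⊗ₖ Q) := by
  refine Rel.add_left ?_ ?_
  · rw [← hst]; exact h1.kron h2
  · simpa using (Rel.one_left P).kron h3

theorem step_DA (p : Fin 2 × κ) : Rel (-1) G.stepD (G.stepA p) := by
  obtain ⟨i, a⟩ := p
  refine Rel.add_left ?_ ?_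
  · fin_cases i
    · change Rel (-1) _ ((1 : Matrix (Fin 2) (Fin 2) ℤ) ⊗ₖ (G.A a ⊗ₖ G.Y))
      have := G.M_rel (G.DA a) (Rel.refl G.Y) (by norm_num) G.DY
      simpa using (Rel.one_left (1 : Matrix (Fin 2) (Fin 2) ℤ)).kron this
    · change Rel (-1) _ (ep ⊗ₖ (G.E ⊗ₖ G.A a))
      have := G.M_rel G.DE (G.YA a) (by norm_num) (G.DA a)
      simpa using (Rel.one_left ep).kron this
  · fin_cases i
    · change Rel (-1) _ ((1 : Matrix (Fin 2) (Fin 2) ℤ) ⊗ₖ (G.A a ⊗ₖ G.Y))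
      simpa using (Rel.one_right ep).kron ((G.EA a).kron G.EY)
    · change Rel (-1) _ (ep ⊗ₖ (G.E ⊗ₖ G.A a))
      simpa using (Rel.refl ep).kron ((Rel.refl G.E).kron (G.EA a))

theorem step_AA (p q : Fin 2 × κ) : Rel (-1) (G.stepA p) (G.stepA q) := by
  obtain ⟨i, a⟩ := p
  obtain ⟨j, b⟩ := q
  fin_cases i <;> fin_cases j
  · change Rel (-1) ((1 : Matrix (Fin 2) (Fin 2) ℤ) ⊗ₖ (G.A a ⊗ₖ G.Y))
      ((1 : Matrix (Fin 2) (Fin 2) ℤ) ⊗ₖ (G.A b ⊗ₖ G.Y))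
    simpa using (Rel.one_left (1 : Matrix (Fin 2) (Fin 2) ℤ)).kron ((G.AA a b).kron (Rel.refl G.Y))
  · change Rel (-1) ((1 : Matrix (Fin 2) (Fin 2) ℤ) ⊗ₖ (G.A a ⊗ₖ G.Y)) (ep ⊗ₖ (G.E ⊗ₖ G.A b))
    simpa using (Rel.one_left ep).kron ((G.AE a).kron (G.YA b))
  · change Rel (-1) (ep ⊗ₖ (G.E ⊗ₖ G.A a)) ((1 : Matrix (Fin 2) (Fin 2) ℤ) ⊗ₖ (G.A b ⊗ₖ G.Y))
    simpa using (Rel.one_right ep).kron ((G.EA b).kron (G.AY a))
  · change Rel (-1) (ep ⊗ₖ (G.E ⊗ₖ G.A a)) (ep ⊗ₖ (G.E ⊗ₖ G.A b))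
    simpa using (Rel.refl ep).kron ((Rel.refl G.E).kron (G.AA a b))

theorem card_step : (Fintype.card (Fin 2 × (ι × ι)) : ℤ) =
    2 * ((Fintype.card ι : ℤ) * (Fintype.card ι : ℤ)) := by
  rw [Fintype.card_prod, Fintype.card_prod, Fintype.card_fin]
  push_cast
  ring

theorem step_DD : G.stepD * G.stepD =
    (1 - (Fintype.card (Fin 2 × (ι × ι)) : ℤ)) • (1 : Matrix (Fin 2 × (ι × ι)) _ ℤ) := by
  have h1 : Rel (-1) ((1 : Matrix (Fin 2) (Fin 2) ℤ) ⊗ₖ (G.D ⊗ₖ G.Y + (1 : Matrix ι ι ℤ) ⊗ₖ G.D))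
      (ep ⊗ₖ (G.E ⊗ₖ G.E)) := by
    have := G.M_rel G.DE G.YE (by norm_num) G.DE
    simpa using (Rel.one_left ep).kron this
  unfold stepD
  rw [sq_add h1, ← mul_kronecker_mul, sq_add G.M_ED, ← mul_kronecker_mul, ← mul_kronecker_mul,
    ← mul_kronecker_mul, ← mul_kronecker_mul, G.DD, G.YY, G.EE, ep_ep, one_mul, one_mul,
    smul_one_kron, smul_one_kron, card_step]
  have e1 : (-1 : Matrix (Fin 2) (Fin 2) ℤ) = (-1 : ℤ) • 1 := by simp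
  have e2 : (1 : Matrix ι ι ℤ) ⊗ₖ ((1 - (Fintype.card ι : ℤ)) • (1 : Matrix ι ι ℤ)) =
      (1 - (Fintype.card ι : ℤ)) • 1 := by
    rw [kronecker_smul, one_kronecker_one]
  rw [e1, smul_one_kron, e2, ← add_smul, kronecker_smul, one_kronecker_one, ← add_smul]
  congr 1
  ring

theorem step_AT (p q : Fin 2 × κ) : G.stepA p * (G.stepA q)ᵀ + (G.stepA q)ᵀ * G.stepA p =
    if p = q then (G.c * (Fintype.card ι : ℤ)) • (1 : Matrix (Fin 2 × (ι × ι)) _ ℤ) else 0 := by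
  obtain ⟨i, a⟩ := p
  obtain ⟨j, b⟩ := q
  have t0 : ∀ b, ((1 : Matrix (Fin 2) (Fin 2) ℤ) ⊗ₖ (G.A b ⊗ₖ G.Y))ᵀ =
      (1 : Matrix (Fin 2) (Fin 2) ℤ) ⊗ₖ ((G.A b)ᵀ ⊗ₖ G.Y) := by
    intro b
    rw [← kroneckerMap_transpose, ← kroneckerMap_transpose, transpose_one, G.YT]
  have t1 : ∀ b, (ep ⊗ₖ (G.E ⊗ₖ G.A b))ᵀ = (-ep) ⊗ₖ (G.E ⊗ₖ (G.A b)ᵀ) := by
    intro b
    rw [← kroneckerMap_transpose, ← kroneckerMap_transpose, epT, G.ET]
  have hAT := G.AT a b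
  fin_cases i <;> fin_cases j
  · change ((1 : Matrix (Fin 2) (Fin 2) ℤ) ⊗ₖ (G.A a ⊗ₖ G.Y)) *
      ((1 : Matrix (Fin 2) (Fin 2) ℤ) ⊗ₖ (G.A b ⊗ₖ G.Y))ᵀ +
      ((1 : Matrix (Fin 2) (Fin 2) ℤ) ⊗ₖ (G.A b ⊗ₖ G.Y))ᵀ *
      ((1 : Matrix (Fin 2) (Fin 2) ℤ) ⊗ₖ (G.A a ⊗ₖ G.Y)) =
      if ((0 : Fin 2), a) = (0, b) then _ else 0
    rw [t0, ← mul_kronecker_mul, ← mul_kronecker_mul, ← mul_kronecker_mul, ← mul_kronecker_mul,
      one_mul, ← kronecker_add, ← add_kronecker, hAT, G.YY]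
    by_cases h : a = b
    · subst h
      rw [if_pos rfl, if_pos rfl, smul_one_kron, kronecker_smul, one_kronecker_one]
    · rw [if_neg h, if_neg (fun h' => h (Prod.ext_iff.1 h').2), zero_kronecker, kronecker_zero]
  · change ((1 : Matrix (Fin 2) (Fin 2) ℤ) ⊗ₖ (G.A a ⊗ₖ G.Y)) * (ep ⊗ₖ (G.E ⊗ₖ G.A b))ᵀ +
      (ep ⊗ₖ (G.E ⊗ₖ G.A b))ᵀ * ((1 : Matrix (Fin 2) (Fin 2) ℤ) ⊗ₖ (G.A a ⊗ₖ G.Y)) =
      if ((0 : Fin 2), a) = (1, b) then _ else 0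
    have h1 : Rel (-1) ((1 : Matrix (Fin 2) (Fin 2) ℤ) ⊗ₖ (G.A a ⊗ₖ G.Y))
        ((-ep) ⊗ₖ (G.E ⊗ₖ (G.A b)ᵀ)) := by
      simpa using (Rel.one_left (-ep)).kron ((G.AE a).kron ((G.AtY b).symm (by norm_num)))
    rw [t1, if_neg (fun h' => by simpa using (Prod.ext_iff.1 h').1)]
    unfold Rel at h1
    rw [h1, neg_one_smul, neg_add_cancel]
  · change (ep ⊗ₖ (G.E ⊗ₖ G.A a)) * ((1 : Matrix (Fin 2) (Fin 2) ℤ) ⊗ₖ (G.A b ⊗ₖ G.Y))ᵀ +
      ((1 : Matrix (Fin 2) (Fin 2) ℤ) ⊗ₖ (G.A b ⊗ₖ G.Y))ᵀ * (ep ⊗ₖ (G.E ⊗ₖ G.A a)) =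
      if ((1 : Fin 2), a) = (0, b) then _ else 0
    have h1 : Rel (-1) (ep ⊗ₖ (G.E ⊗ₖ G.A a))
        ((1 : Matrix (Fin 2) (Fin 2) ℤ) ⊗ₖ ((G.A b)ᵀ ⊗ₖ G.Y)) := by
      simpa using (Rel.one_right ep).kron (((G.AtE b).symm (by norm_num)).kron (G.AY a))
    rw [t0, if_neg (fun h' => by simpa using (Prod.ext_iff.1 h').1)]
    unfold Rel at h1
    rw [h1, neg_one_smul, neg_add_cancel]
  · change (ep ⊗ₖ (G.E ⊗ₖ G.A a)) * (ep ⊗ₖ (G.E ⊗ₖ G.A b))ᵀ +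
      (ep ⊗ₖ (G.E ⊗ₖ G.A b))ᵀ * (ep ⊗ₖ (G.E ⊗ₖ G.A a)) = if ((1 : Fin 2), a) = (1, b) then _ else 0
    have e1 : ep * -ep = 1 := by rw [mul_neg, ep_ep, neg_neg]
    have e2 : -ep * ep = 1 := by rw [neg_mul, ep_ep, neg_neg]
    rw [t1, ← mul_kronecker_mul, ← mul_kronecker_mul, ← mul_kronecker_mul, ← mul_kronecker_mul,
      e1, e2, ← kronecker_add, ← kronecker_add, hAT, G.EE]
    by_cases h : a = b
    · subst h
      rw [if_pos rfl, if_pos rfl, smul_one_kron, kronecker_smul, one_kronecker_one, mul_comm]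
    · rw [if_neg h, if_neg (fun h' => h (Prod.ext_iff.1 h').2), kronecker_zero, kronecker_zero]

theorem stepD_apply (i : Fin 2) (x x' : ι) (j : Fin 2) (y y' : ι) :
    G.stepD (i, (x, x')) (j, (y, y')) = (if i = j then
      G.D x y * G.Y x' y' + (if x = y then G.D x' y' else 0) else 0) +
      ep i j * (G.E x y * G.E x' y') := by
  simp only [stepD, Matrix.add_apply, kroneckerMap_apply, Matrix.one_apply]
  congr 1
  by_cases h : i = j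
  · rw [if_pos h, if_pos h, one_mul]
    congr 1
    by_cases h' : x = y
    · rw [if_pos h', if_pos h', one_mul]
    · rw [if_neg h', if_neg h', zero_mul]
  · rw [if_neg h, if_neg h, zero_mul]

theorem step_D0 (x : Fin 2 × (ι × ι)) : G.stepD x x = 0 := by
  obtain ⟨i, x, x'⟩ := x
  rw [stepD_apply, if_pos rfl, if_pos rfl, G.D0, G.D0, ep_self]
  ring

theorem step_D1 (x y : Fin 2 × (ι × ι)) (h : x ≠ y) : Sg (G.stepD x y) := by
  obtain ⟨i, x, x'⟩ := x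
  obtain ⟨j, y, y'⟩ := y
  rw [stepD_apply]
  by_cases hij : i = j
  · subst hij
    rw [if_pos rfl, ep_self, zero_mul, add_zero]
    by_cases hxy : x = y
    · subst hxy
      rw [if_pos rfl, G.D0, zero_mul, zero_add]
      exact G.D1 _ _ fun h' => h (by rw [h'])
    · rw [if_neg hxy, add_zero]
      exact (G.D1 _ _ hxy).mul (G.Ys _ _)
  · rw [if_neg hij, zero_add]
    exact (ep_ne _ _ hij).mul ((G.Es _ _).mul (G.Es _ _))

theorem step_DT : G.stepDᵀ = -G.stepD := by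
  unfold stepD
  rw [transpose_add, ← kroneckerMap_transpose, ← kroneckerMap_transpose, transpose_add,
    ← kroneckerMap_transpose, ← kroneckerMap_transpose, ← kroneckerMap_transpose, transpose_one,
    transpose_one, G.DT, G.YT, G.ET, epT]
  ext i j
  simp only [Matrix.add_apply, Matrix.neg_apply, kroneckerMap_apply]
  ring

theorem step_sup (x y : Fin 2 × (ι × ι)) :
    ∃ a, Sg (G.stepA a x y) ∧ ∀ b, b ≠ a → G.stepA b x y = 0 := by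
  obtain ⟨i, x, x'⟩ := x
  obtain ⟨j, y, y'⟩ := y
  by_cases hij : i = j
  · subst hij
    obtain ⟨a, ha, hb⟩ := G.sup x y
    refine ⟨(0, a), ?_, ?_⟩
    · rw [stepA0]
      simp only [kroneckerMap_apply, Matrix.one_apply_eq, one_mul]
      exact ha.mul (G.Ys _ _)
    · rintro ⟨k, b⟩ hkb
      fin_cases k
      · change G.stepA (0, b) _ _ = 0
        rw [stepA0]
        simp only [kroneckerMap_apply, Matrix.one_apply_eq, one_mul]
        rw [hb b (fun h => hkb (by rw [h]; rfl)), zero_mul]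
      · change G.stepA (1, b) _ _ = 0
        rw [stepA1]
        simp only [kroneckerMap_apply, ep_self, zero_mul]
  · obtain ⟨a, ha, hb⟩ := G.sup x' y'
    refine ⟨(1, a), ?_, ?_⟩
    · rw [stepA1]
      simp only [kroneckerMap_apply]
      exact (ep_ne _ _ hij).mul ((G.Es _ _).mul ha)
    · rintro ⟨k, b⟩ hkb
      fin_cases k
      · change G.stepA (0, b) _ _ = 0
        rw [stepA0]
        simp only [kroneckerMap_apply, Matrix.one_apply_ne hij, zero_mul]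
      · change G.stepA (1, b) _ _ = 0
        rw [stepA1]
        simp only [kroneckerMap_apply]
        rw [hb b (fun h => hkb (by rw [h]; rfl)), mul_zero, mul_zero]

theorem had_kron {P Q : Matrix ι ι ℤ} (hP : P * P = (Fintype.card ι : ℤ) • (1 : Matrix ι ι ℤ))
    (hQ : Q * Q = (Fintype.card ι : ℤ) • (1 : Matrix ι ι ℤ)) :
    (hh ⊗ₖ (P ⊗ₖ Q)) * (hh ⊗ₖ (P ⊗ₖ Q)) =
      (Fintype.card (Fin 2 × (ι × ι)) : ℤ) • (1 : Matrix (Fin 2 × (ι × ι)) _ ℤ) := by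
  rw [← mul_kronecker_mul, ← mul_kronecker_mul, hP, hQ, hh_hh, smul_one_kron, smul_one_kron,
    card_step]

theorem hh_kron_T {P Q : Matrix ι ι ℤ} (hP : Pᵀ = P) (hQ : Qᵀ = Q) :
    (hh ⊗ₖ (P ⊗ₖ Q))ᵀ = hh ⊗ₖ (P ⊗ₖ Q) := by
  rw [← kroneckerMap_transpose, ← kroneckerMap_transpose, hP, hQ, hhT]

theorem hh_kron_sg {P Q : Matrix ι ι ℤ} (hP : ∀ x y, Sg (P x y)) (hQ : ∀ x y, Sg (Q x y)) :
    ∀ x y, Sg ((hh ⊗ₖ (P ⊗ₖ Q)) x y) := by
  rintro ⟨i, x, x'⟩ ⟨j, y, y'⟩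
  simp only [kroneckerMap_apply]
  exact (hh_sg _ _).mul ((hP _ _).mul (hQ _ _))

theorem step_DE : Rel (-1) G.stepD (hh ⊗ₖ (G.E ⊗ₖ G.Y)) := by
  refine Rel.add_left ?_ ?_
  · have := G.M_rel G.DE (Rel.refl G.Y) (by norm_num) G.DY
    simpa using (Rel.one_left hh).kron this
  · simpa using ep_hh.kron ((Rel.refl G.E).kron G.EY)

theorem step_DY : Rel (-1) G.stepD (hh ⊗ₖ (G.Y ⊗ₖ G.E)) := by
  refine Rel.add_left ?_ ?_
  · have := G.M_rel G.DY G.YE (by norm_num) G.DE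
    simpa using (Rel.one_left hh).kron this
  · simpa using ep_hh.kron (G.EY.kron (Rel.refl G.E))

theorem hh_ep : Rel (-1) hh ep := ep_hh.symm (by norm_num)

theorem step_EA (p : Fin 2 × κ) : Rel (-1) (hh ⊗ₖ (G.E ⊗ₖ G.Y)) (G.stepA p) := by
  obtain ⟨i, a⟩ := p
  fin_cases i
  · change Rel (-1) _ ((1 : Matrix (Fin 2) (Fin 2) ℤ) ⊗ₖ (G.A a ⊗ₖ G.Y))
    simpa using (Rel.one_right hh).kron ((G.EA a).kron (Rel.refl G.Y))
  · change Rel (-1) _ (ep ⊗ₖ (G.E ⊗ₖ G.A a))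
    simpa using hh_ep.kron ((Rel.refl G.E).kron (G.YA a))

theorem step_YA (p : Fin 2 × κ) : Rel 1 (hh ⊗ₖ (G.Y ⊗ₖ G.E)) (G.stepA p) := by
  obtain ⟨i, a⟩ := p
  fin_cases i
  · change Rel 1 _ ((1 : Matrix (Fin 2) (Fin 2) ℤ) ⊗ₖ (G.A a ⊗ₖ G.Y))
    simpa using (Rel.one_right hh).kron ((G.YA a).kron G.EY)
  · change Rel 1 _ (ep ⊗ₖ (G.E ⊗ₖ G.A a))
    simpa using hh_ep.kron (G.YE.kron (G.EA a))

theorem step_EY : Rel 1 (hh ⊗ₖ (G.E ⊗ₖ G.Y)) (hh ⊗ₖ (G.Y ⊗ₖ G.E)) := by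
  simpa using (Rel.refl hh).kron (G.EY.kron G.YE)

/-- from a gadget of order `n` with `r` arms to a gadget of order `2 n ^ 2` with `2 r` arms -/
def step : Gad (Fin 2 × (ι × ι)) (Fin 2 × κ) where
  D := G.stepD
  A := G.stepA
  E := hh ⊗ₖ (G.E ⊗ₖ G.Y)
  Y := hh ⊗ₖ (G.Y ⊗ₖ G.E)
  c := G.c * (Fintype.card ι : ℤ)
  D0 := G.step_D0
  D1 := G.step_D1
  DT := G.step_DT
  DD := G.step_DD
  sup := G.step_sup
  DA := G.step_DA
  AA := G.step_AA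
  AT := G.step_AT
  hc := by
    rw [card_step, Fintype.card_prod, Fintype.card_fin]
    push_cast
    have := G.hc
    linear_combination (2 * (Fintype.card ι : ℤ)) * this
  ET := hh_kron_T G.ET G.YT
  Es := hh_kron_sg G.Es G.Ys
  EE := had_kron G.EE G.YY
  DE := G.step_DE
  EA := G.step_EA
  YT := hh_kron_T G.YT G.ET
  Ys := hh_kron_sg G.Ys G.Es
  YY := had_kron G.YY G.EE
  DY := G.step_DY
  YA := G.step_YA
  EY := G.step_EY

end Gad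

end Pool.Agent.Y342.SK
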