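import Pool.Agent.Y342.SK.Asm
import Pool.Agent.W851.Had.Tower

/-!
# Skew conference matrices of order `2 ^ t * q`
-/

set_option autoImplicit false

namespace Pool.Agent.Y342.SK

open Matrix Finset
open Pool.Agent.W851.Had (tow)
open Pool.Agent.H108R3.Had (PUk HasHad)

/-- a skew conference matrix of order `2 ^ t * q` for all `t ≥ 2 ^ (C ^ (1 + log* q))` -/
theorem main_skew : ∃ C : ℕ, 2 ≤ C ∧ ∀ n q t : ℕ, 0 < q → q ≤ tow n → 2 ^ C ^ (n + 1) ≤ t →
    SkewC (2 ^ t * q) := by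
  obtain ⟨C, hC, h⟩ := Pool.Agent.W851.Had.main_pu
  refine ⟨C + 3, by omega, fun n q t hq hqn ht => ?_⟩
  obtain ⟨a, m, hm, rfl⟩ := Nat.exists_eq_two_pow_mul_odd (n := q) hq.ne'
  obtain ⟨S, rfl⟩ := hm
  have h1 : PUk (C ^ (n + 1)) S := by
    refine h n S _ ?_ le_rfl
    refine le_trans ?_ hqn
    have : 1 ≤ 2 ^ a := Nat.one_le_two_pow
    nlinarith
  have h2 : C ^ (n + 1) + 3 ≤ (C + 3) ^ (n + 1) := by
    have h3 : C ^ (n + 1) + 3 ^ (n + 1) ≤ (C + 3) ^ (n + 1) := by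
      have := pow_add_pow_le (by omega : 0 ≤ C) (by omega : 0 ≤ 3) (n := n + 1) (by omega)
      exact this
    have h4 : 3 ≤ 3 ^ (n + 1) := by
      calc 3 = 3 ^ 1 := by norm_num
        _ ≤ 3 ^ (n + 1) := Nat.pow_le_pow_right (by norm_num) (by omega)
    omega
  have h5 : 5 * 2 ^ C ^ (n + 1) - 1 ≤ t := by
    have h6 : 2 ^ (C ^ (n + 1) + 3) ≤ 2 ^ (C + 3) ^ (n + 1) := Nat.pow_le_pow_right (by norm_num) h2
    rw [pow_add] at h6
    have h7 : 2 ^ C ^ (n + 1) * 2 ^ 3 ≤ t := h6.trans ht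
    omega
  have h8 := skew_of_PUk h1 (t := t + a) (by omega)
  rwa [pow_add, mul_assoc] at h8

/-- a skew conference matrix of order `2 ^ (2 * (q - 1)) * q`, `q` odd, needs only the gadgets; the
general bound is `main_skew` -/
theorem SkewC.had {m : ℕ} (h : SkewC m) : ∃ H : Matrix (Fin m) (Fin m) ℤ,
    (∀ i j, H i j = 1 ∨ H i j = -1) ∧ H + H.transpose = (2 : ℤ) • (1 : Matrix (Fin m) (Fin m) ℤ) ∧
      H * H.transpose = (m : ℤ) • (1 : Matrix (Fin m) (Fin m) ℤ) := by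
  obtain ⟨K, h⟩ := h
  refine ⟨1 + K, fun i j => ?_, ?_, ?_⟩
  · by_cases hij : i = j
    · subst hij
      left
      rw [Matrix.add_apply, one_apply_eq, h.diag, add_zero]
    · rw [Matrix.add_apply, one_apply_ne hij, zero_add]
      exact h.sign _ _ hij
  · rw [transpose_add, transpose_one, h.skew, two_smul]
    abel
  · rw [transpose_add, transpose_one, h.skew, add_mul, one_mul, mul_add, mul_one, mul_neg, h.sq,
      Fintype.card_fin, sub_smul, one_smul]
    abel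

end Pool.Agent.Y342.SK
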